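import Mathlib

set_option autoImplicit false

namespace H246R3.Golomb

/-- evaluate `n` before passing it on -/
def force (n : ℕ) (g : ℕ → Bool) : Bool :=
  Nat.rec (motive := fun _ => Bool) (g 0) (fun m _ => g (Nat.succ m)) n

theorem force_eq (n : ℕ) (g : ℕ → Bool) : force n g = g n := by
  cases n <;> rfl

def BU : ℕ := 27719928944496560649
def BL : ℕ := 20038633902389062494
def BLo : ℕ := 18334252806566325959
def BN : ℕ := 29330947899654924321
def BNU : ℕ := 25921482632623541835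

/-- the upper check: `y ≤ σ Φ(x)` -/
def up (B x y : ℕ) : Bool :=
  Nat.ble (Nat.mul (Nat.pow y 610) (Nat.pow 2 326)) (Nat.mul B (Nat.pow x 987))

/-- the lower check: `σ Φ(x) ≤ y` -/
def lo (B x y : ℕ) : Bool :=
  Nat.ble (Nat.mul B (Nat.pow x 1597)) (Nat.mul (Nat.pow y 987) (Nat.pow 2 488))

/-- full check at the node `x = F k`, `y = F (F k)`, `j = f (k+1)` -/
def chk (j k x y z : ℕ) : Bool :=
  match Nat.ble 350 k with
  | false => true
  | true =>
    and (up BU x (Nat.add y (Nat.mul 2 j)))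
      (and (lo BLo x y)
        (and (Nat.ble (Nat.mul 1000 (Nat.mul (Nat.sub k 1) x)) (Nat.mul 1618 y))
          (and (match Nat.ble 1010 k with
            | false => true
            | true => match Nat.ble k 8166 with
              | false => true
              | true => up BL x (Nat.add y (Nat.mul 2 j)))
            (match Nat.beq k 1010 with
              | false => true
              | true => and (lo BN y z) (up BNU y z)))))

def inner (j : ℕ) (cont : ℕ → ℕ → ℕ → ℕ → Bool) (c : ℕ) : ℕ → ℕ → ℕ → ℕ → Bool :=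
  Nat.rec (motive := fun _ => ℕ → ℕ → ℕ → ℕ → Bool)
    (fun k x y z => cont k x y z)
    (fun _ ih k x y z =>
      force k fun k => force x fun x => force y fun y => force z fun z =>
        and (chk j k x y z)
          (ih (Nat.succ k) (Nat.add x j) (Nat.add y (Nat.mul (Nat.succ k) j))
            (Nat.add z (Nat.mul (Nat.succ k)
              (Nat.add (Nat.mul x j) (Nat.div (Nat.mul j (Nat.succ j)) 2))))))
    c

def run (L : List ℕ) : ℕ → ℕ → ℕ → ℕ → ℕ → Bool :=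
  List.rec (motive := fun _ => ℕ → ℕ → ℕ → ℕ → ℕ → Bool)
    (fun _ k x _ _ => and (Nat.ble 9867 k) (Nat.ble 2156146 x))
    (fun c _ ih j k x y z => force j fun j =>
      inner j (fun k x y z => ih (Nat.succ j) k x y z) c k x y z)
    L

def T : List ℕ :=
  [1, 2, 2, 3, 3, 4, 4, 4, 5, 5, 5, 6, 6, 6, 6, 7, 7, 7, 7, 8, 8, 8, 8, 9, 9, 9, 9, 9, 10, 10, 10, 10, 10, 11, 11, 11, 11, 11, 12, 12, 12, 12, 12, 12, 13, 13, 13, 13, 13, 13, 14, 14, 14, 14, 14, 14, 15, 15, 15, 15, 15, 15, 16, 16, 16, 16, 16, 16, 16, 17, 17, 17, 17, 17, 17, 17, 18, 18, 18, 18, 18, 18, 18, 19, 19, 19, 19, 19, 19, 19, 20, 20, 20, 20, 20, 20, 20, 20, 21, 21, 21, 21, 21, 21, 21, 21, 22, 22, 22, 22, 22, 22, 22, 22, 23, 23, 23, 23, 23, 23, 23, 23, 24, 24, 24, 24, 24, 24, 24, 24, 24, 25, 25, 25, 25, 25, 25, 25, 25, 25, 26, 26, 26, 26, 26, 26, 26, 26, 26, 27, 27, 27, 27, 27, 27, 27, 27, 27, 28, 28, 28, 28, 28, 28, 28, 28, 28, 29, 29, 29, 29, 29, 29, 29, 29,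 29, 29, 30, 30, 30, 30, 30, 30, 30, 30, 30, 30, 31, 31, 31, 31, 31, 31, 31, 31, 31, 31, 32, 32, 32, 32, 32, 32, 32, 32, 32, 32, 33, 33, 33, 33, 33, 33, 33, 33, 33, 33, 34, 34, 34, 34, 34, 34, 34, 34, 34, 34, 34, 35, 35, 35, 35, 35, 35, 35, 35, 35, 35, 35, 36, 36, 36, 36, 36, 36, 36, 36, 36, 36, 36, 37, 37, 37, 37, 37, 37, 37, 37, 37, 37, 37, 38, 38, 38, 38, 38, 38, 38, 38, 38, 38, 38, 39, 39, 39, 39, 39, 39, 39, 39, 39, 39, 39, 39, 40, 40, 40, 40, 40, 40, 40, 40, 40, 40, 40, 40, 41, 41, 41, 41, 41, 41, 41, 41, 41, 41, 41, 41, 42, 42, 42, 42, 42, 42, 42, 42, 42, 42, 42, 42, 43, 43, 43, 43, 43, 43, 43, 43, 43, 43, 43, 43, 44, 44, 44, 44, 44, 44, 44, 44, 44, 44, 44, 44, 45, 45, 45, 45, 45, 45, 45, 45, 45]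

theorem run_ok : run T 1 0 0 0 0 = true := by decide +kernel

end H246R3.Golomb
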