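import Mathlib
import Pool.Agent.H246R3.Golomb.Num

set_option autoImplicit false
set_option exponentiation.threshold 2000

namespace H246R3.Golomb

noncomputable section

def t : ℝ := (1 + Real.sqrt 5) / 2

theorem t_sq : t * t = t + 1 := by
  unfold t
  have h : Real.sqrt 5 * Real.sqrt 5 = 5 := Real.mul_self_sqrt (by norm_num)
  nlinarith

theorem t_lo : (1.6180339887 : ℝ) < t := by
  unfold t
  have h : (2.2360679774 : ℝ) < Real.sqrt 5 := by
    apply Real.lt_sqrt_of_sq_lt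
    norm_num
  linarith

theorem t_hi : t < (1.6180339888 : ℝ) := by
  unfold t
  have h : Real.sqrt 5 < (2.2360679776 : ℝ) := by
    rw [Real.sqrt_lt' (by norm_num)]
    norm_num
  linarith

theorem t_pos : 0 < t := by linarith [t_lo]

theorem t_inv : t * (t - 1) = 1 := by linarith [t_sq]

def Phi (x : ℝ) : ℝ := t * (x / t) ^ t
def phi (x : ℝ) : ℝ := t * (x / t) ^ (t - 1)

theorem Phi_nonneg {x : ℝ} (hx : 0 ≤ x) : 0 ≤ Phi x := by
  unfold Phi
  have := t_pos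
  positivity

theorem phi_nonneg {x : ℝ} (hx : 0 ≤ x) : 0 ≤ phi x := by
  unfold phi
  have := t_pos
  positivity

theorem Phi_pos {x : ℝ} (hx : 0 < x) : 0 < Phi x := by
  unfold Phi
  have := t_pos
  positivity

theorem phi_pos {x : ℝ} (hx : 0 < x) : 0 < phi x := by
  unfold phi
  have := t_pos
  positivity

theorem Phi_mono {x y : ℝ} (hx : 0 ≤ x) (hxy : x ≤ y) : Phi x ≤ Phi y := by
  unfold Phi
  have := t_pos
  gcongr

theorem phi_mono {x y : ℝ} (hx : 0 ≤ x) (hxy : x ≤ y) : phi x ≤ phi y := by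
  unfold phi
  have := t_pos
  have h2 : 0 ≤ t - 1 := by linarith [t_lo]
  gcongr

theorem phi_Phi {x : ℝ} (hx : 0 ≤ x) : phi (Phi x) = x := by
  unfold phi Phi
  have ht := t_pos
  have h1 : t * (x / t) ^ t / t = (x / t) ^ t := by field_simp
  rw [h1, ← Real.rpow_mul (by positivity), t_inv, Real.rpow_one]
  field_simp

theorem phi_mul_self {x : ℝ} (hx : 0 < x) : phi x * x = t * Phi x := by
  unfold phi Phi
  have ht := t_pos
  have h1 : (x / t) ^ t = (x / t) ^ (t - 1) * (x / t) := by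
    have h2 : 0 < x / t := by positivity
    rw [← Real.rpow_add_one h2.ne']
    congr 1
    ring
  rw [h1]
  field_simp

theorem Phi_mul {c x : ℝ} (hc : 0 ≤ c) (hx : 0 ≤ x) : Phi (c * x) = c ^ t * Phi x := by
  unfold Phi
  have ht := t_pos
  rw [mul_div_assoc, Real.mul_rpow hc (by positivity)]
  ring

theorem phi_mul {c x : ℝ} (hc : 0 ≤ c) (hx : 0 ≤ x) : phi (c * x) = c ^ (t - 1) * phi x := by
  unfold phi
  have ht := t_pos
  rw [mul_div_assoc, Real.mul_rpow hc (by positivity)]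
  ring

theorem phi_exp {c x : ℝ} (hx : 0 ≤ x) :
    phi (Real.exp c * x) = Real.exp ((t - 1) * c) * phi x := by
  rw [phi_mul (Real.exp_pos c).le hx, mul_comm (t - 1) c, Real.exp_mul]

theorem Phi_tangent {x y : ℝ} (hx : 0 < x) (hy : 0 ≤ y) :
    Phi x + phi x * (y - x) ≤ Phi y := by
  have h1 : 1 + t * (y / x - 1) ≤ (1 + (y / x - 1)) ^ t := by
    apply one_add_mul_self_le_rpow_one_add
    · have : 0 ≤ y / x := by positivity
      linarith
    · linarith [t_lo]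
  have h2 : Phi y = (y / x) ^ t * Phi x := by
    rw [← Phi_mul (by positivity) hx.le]
    congr 1
    field_simp
  have h3 : phi x * (y - x) = Phi x * (t * (y / x - 1)) := by
    have h4 := phi_mul_self hx
    have h5 : phi x * (y - x) = (phi x * x) * (y / x - 1) := by
      field_simp
    rw [h5, h4]
    ring
  have h6 : 1 + (y / x - 1) = y / x := by ring
  rw [h6] at h1
  rw [h2, h3]
  have h7 := Phi_nonneg hx.le
  nlinarith [mul_le_mul_of_nonneg_right h1 h7]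

theorem phi_succ {x : ℝ} (hx : 0 < x) : phi (x + 1) ≤ (1 + 1 / x) * phi x := by
  have h1 : x + 1 = (1 + 1 / x) * x := by field_simp
  have h0 : (1 : ℝ) ≤ 1 + 1 / x := by
    have : 0 < 1 / x := by positivity
    linarith
  have h2 : (1 + 1 / x) ^ (t - 1) ≤ (1 + 1 / x) ^ (1 : ℝ) :=
    Real.rpow_le_rpow_of_exponent_le h0 (by linarith [t_hi])
  rw [Real.rpow_one] at h2
  rw [h1, phi_mul (by positivity) hx.le]
  exact mul_le_mul_of_nonneg_right h2 (phi_nonneg hx.le)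

/-- difference of `Phi` is at most `phi` at the right end -/
theorem Phi_sub_le {x : ℝ} (hx : 0 < x) (h1 : 1 ≤ x) : Phi x - Phi (x - 1) ≤ phi x := by
  have h := Phi_tangent hx (y := x - 1) (by linarith)
  linarith

theorem le_Phi_sub {x : ℝ} (h1 : 0 < x) : phi x ≤ Phi (x + 1) - Phi x := by
  have h := Phi_tangent h1 (y := x + 1) (by linarith)
  linarith

/-- `phi (x+1) ≤ (1 + 1/x) (Phi (x+1) - Phi x)` -/
theorem phi_succ_le {x : ℝ} (hx : 0 < x) :
    phi (x + 1) ≤ (1 + 1 / x) * (Phi (x + 1) - Phi x) := by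
  refine (phi_succ hx).trans ?_
  exact mul_le_mul_of_nonneg_left (le_Phi_sub hx) (by positivity)

theorem up_sound (B : ℕ) (s : ℝ) (hs : 0 < s) (hB : (B : ℝ) * t ^ 377 ≤ 2 ^ 326 * s ^ 610)
    {x y : ℕ} (hx : 2 ≤ x) (h : up B x y = true) : (y : ℝ) ≤ s * Phi x := by
  have ht := t_pos
  have h0 : y ^ 610 * 2 ^ 326 ≤ B * x ^ 987 := Nat.le_of_ble_eq_true h
  have h0' : (y : ℝ) ^ 610 * 2 ^ 326 ≤ B * (x : ℝ) ^ 987 := by exact_mod_cast h0
  have hx' : (2 : ℝ) ≤ x := by exact_mod_cast hx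
  set X : ℝ := (x : ℝ) / t with hX
  have hX1 : 1 ≤ X := by
    rw [hX, le_div_iff₀ ht]
    linarith [t_hi]
  have hxX : (x : ℝ) = t * X := by rw [hX]; field_simp
  have hX0 : 0 < X := by linarith
  have h1 : X ^ ((987 : ℝ) / 610) ≤ X ^ t :=
    Real.rpow_le_rpow_of_exponent_le hX1 (by linarith [t_lo])
  have h2 : (X ^ ((987 : ℝ) / 610)) ^ 610 = X ^ 987 := by
    rw [← Real.rpow_natCast, ← Real.rpow_mul hX0.le]
    norm_num
  have h3 : (y : ℝ) ≤ s * (t * X ^ ((987 : ℝ) / 610)) := by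
    have h4 : (y : ℝ) ^ 610 ≤ (s * (t * X ^ ((987 : ℝ) / 610))) ^ 610 := by
      rw [mul_pow, mul_pow, h2]
      have h5 : (y : ℝ) ^ 610 * 2 ^ 326 ≤ (s ^ 610 * (t ^ 610 * X ^ 987)) * 2 ^ 326 := by
        calc (y : ℝ) ^ 610 * 2 ^ 326 ≤ B * (x : ℝ) ^ 987 := h0'
          _ = (B * t ^ 377) * (t ^ 610 * X ^ 987) := by rw [hxX]; ring
          _ ≤ (2 ^ 326 * s ^ 610) * (t ^ 610 * X ^ 987) :=
              mul_le_mul_of_nonneg_right hB (by positivity)
          _ = (s ^ 610 * (t ^ 610 * X ^ 987)) * 2 ^ 326 := by ring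
      exact le_of_mul_le_mul_right h5 (by positivity)
    exact (pow_le_pow_iff_left₀ (by positivity) (by positivity) (by norm_num)).1 h4
  refine h3.trans ?_
  unfold Phi
  rw [← hX]
  gcongr

theorem lo_sound (B : ℕ) (s : ℝ) (hs : 0 < s) (hB : 2 ^ 488 * s ^ 987 ≤ (B : ℝ) * t ^ 610)
    {x y : ℕ} (hx : 2 ≤ x) (h : lo B x y = true) : s * Phi x ≤ (y : ℝ) := by
  have ht := t_pos
  have h0 : B * x ^ 1597 ≤ y ^ 987 * 2 ^ 488 := Nat.le_of_ble_eq_true h
  have h0' : B * (x : ℝ) ^ 1597 ≤ (y : ℝ) ^ 987 * 2 ^ 488 := by exact_mod_cast h0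
  have hx' : (2 : ℝ) ≤ x := by exact_mod_cast hx
  set X : ℝ := (x : ℝ) / t with hX
  have hX1 : 1 ≤ X := by
    rw [hX, le_div_iff₀ ht]
    linarith [t_hi]
  have hxX : (x : ℝ) = t * X := by rw [hX]; field_simp
  have hX0 : 0 < X := by linarith
  have h1 : X ^ t ≤ X ^ ((1597 : ℝ) / 987) :=
    Real.rpow_le_rpow_of_exponent_le hX1 (by linarith [t_hi])
  have h2 : (X ^ ((1597 : ℝ) / 987)) ^ 987 = X ^ 1597 := by
    rw [← Real.rpow_natCast, ← Real.rpow_mul hX0.le]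
    norm_num
  have h3 : s * (t * X ^ ((1597 : ℝ) / 987)) ≤ (y : ℝ) := by
    have h4 : (s * (t * X ^ ((1597 : ℝ) / 987))) ^ 987 ≤ (y : ℝ) ^ 987 := by
      rw [mul_pow, mul_pow, h2]
      have h5 : (s ^ 987 * (t ^ 987 * X ^ 1597)) * 2 ^ 488 ≤ (y : ℝ) ^ 987 * 2 ^ 488 := by
        calc (s ^ 987 * (t ^ 987 * X ^ 1597)) * 2 ^ 488
            = (2 ^ 488 * s ^ 987) * (t ^ 987 * X ^ 1597) := by ring
          _ ≤ (B * t ^ 610) * (t ^ 987 * X ^ 1597) :=
              mul_le_mul_of_nonneg_right hB (by positivity)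
          _ = B * (x : ℝ) ^ 1597 := by rw [hxX]; ring
          _ ≤ (y : ℝ) ^ 987 * 2 ^ 488 := h0'
      exact le_of_mul_le_mul_right h5 (by positivity)
    exact (pow_le_pow_iff_left₀ (by positivity) (by positivity) (by norm_num)).1 h4
  refine le_trans ?_ h3
  unfold Phi
  rw [← hX]
  gcongr

theorem hBU : (BU : ℝ) * t ^ 377 ≤ 2 ^ 326 * (1.00036 : ℝ) ^ 610 := by
  have h1 : t ^ 377 ≤ (1.6180339888 : ℝ) ^ 377 := pow_le_pow_left₀ t_pos.le t_hi.le _
  have h2 : ((27719928944496560649 : ℕ) : ℝ) * (1.6180339888 : ℝ) ^ 377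
      ≤ 2 ^ 326 * (1.00036 : ℝ) ^ 610 := by norm_num
  exact (mul_le_mul_of_nonneg_left h1 (Nat.cast_nonneg _)).trans h2

theorem hBL : (BL : ℝ) * t ^ 377 ≤ 2 ^ 326 * (0.999828 : ℝ) ^ 610 := by
  have h1 : t ^ 377 ≤ (1.6180339888 : ℝ) ^ 377 := pow_le_pow_left₀ t_pos.le t_hi.le _
  have h2 : ((20038633902389062494 : ℕ) : ℝ) * (1.6180339888 : ℝ) ^ 377
      ≤ 2 ^ 326 * (0.999828 : ℝ) ^ 610 := by norm_num
  exact (mul_le_mul_of_nonneg_left h1 (Nat.cast_nonneg _)).trans h2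

theorem hBNU : (BNU : ℝ) * t ^ 377 ≤ 2 ^ 326 * (1.00025 : ℝ) ^ 610 := by
  have h1 : t ^ 377 ≤ (1.6180339888 : ℝ) ^ 377 := pow_le_pow_left₀ t_pos.le t_hi.le _
  have h2 : ((25921482632623541835 : ℕ) : ℝ) * (1.6180339888 : ℝ) ^ 377
      ≤ 2 ^ 326 * (1.00025 : ℝ) ^ 610 := by norm_num
  exact (mul_le_mul_of_nonneg_left h1 (Nat.cast_nonneg _)).trans h2

theorem hBLo : 2 ^ 488 * (0.999634 : ℝ) ^ 987 ≤ (BLo : ℝ) * t ^ 610 := by
  have h1 : (1.6180339887 : ℝ) ^ 610 ≤ t ^ 610 := pow_le_pow_left₀ (by norm_num) t_lo.le _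
  have h2 : 2 ^ 488 * (0.999634 : ℝ) ^ 987 ≤
      ((18334252806566325959 : ℕ) : ℝ) * (1.6180339887 : ℝ) ^ 610 := by norm_num
  exact h2.trans (mul_le_mul_of_nonneg_left h1 (Nat.cast_nonneg _))

theorem hBN : 2 ^ 488 * (1.00011 : ℝ) ^ 987 ≤ (BN : ℝ) * t ^ 610 := by
  have h1 : (1.6180339887 : ℝ) ^ 610 ≤ t ^ 610 := pow_le_pow_left₀ (by norm_num) t_lo.le _
  have h2 : 2 ^ 488 * (1.00011 : ℝ) ^ 987 ≤
      ((29330947899654924321 : ℕ) : ℝ) * (1.6180339887 : ℝ) ^ 610 := by norm_num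
  exact h2.trans (mul_le_mul_of_nonneg_left h1 (Nat.cast_nonneg _))

end

end H246R3.Golomb
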