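import Mathlib
import Pool.Agent.H246R3.Golomb.Num

set_option autoImplicit false

namespace H246R3.Golomb

/-- the defining properties of Golomb's sequence -/
structure IsGol (f : ℕ → ℕ) : Prop where
  one : f 1 = 1
  mono : ∀ m n : ℕ, 1 ≤ m → m ≤ n → f m ≤ f n
  count : ∀ n : ℕ, 1 ≤ n → f n = Set.ncard {m : ℕ | 1 ≤ m ∧ f m = n}

/-- partial sums -/
def S (f : ℕ → ℕ) (n : ℕ) : ℕ := ∑ k ∈ Finset.range n, f (k + 1)

theorem S_zero (f : ℕ → ℕ) : S f 0 = 0 := by simp [S]

theorem S_succ (f : ℕ → ℕ) (n : ℕ) : S f (n + 1) = S f n + f (n + 1) := by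
  simp [S, Finset.sum_range_succ]

variable {f : ℕ → ℕ}

theorem IsGol.pos (h : IsGol f) {n : ℕ} (hn : 1 ≤ n) : 1 ≤ f n := by
  have := h.mono 1 n le_rfl hn
  rw [h.one] at this
  exact this

theorem IsGol.le_iff (h : IsGol f) (n : ℕ) : ∀ m : ℕ, 1 ≤ m → (f m ≤ n ↔ m ≤ S f n) := by
  induction n with
  | zero =>
    intro m hm
    have := h.pos hm
    rw [S_zero]
    constructor <;> intro h' <;> omega
  | succ n ih =>
    set A : Set ℕ := {m : ℕ | 1 ≤ m ∧ f m = n + 1} with hA
    have hcard : f (n + 1) = A.ncard := h.count (n + 1) (by omega)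
    have hpos : 1 ≤ f (n + 1) := h.pos (by omega)
    have hfin : A.Finite := Set.finite_of_ncard_ne_zero (by omega)
    have hne : A.Nonempty := by
      apply Set.nonempty_of_ncard_ne_zero
      omega
    obtain ⟨M, hM, hmax⟩ := Set.exists_max_image A id hfin hne
    have hAeq : A = Set.Ioc (S f n) M := by
      ext m
      constructor
      · intro hm
        refine ⟨?_, hmax m hm⟩
        by_contra hle
        have := (ih m hm.1).2 (by omega)
        have h2 := hm.2
        omega
      · rintro ⟨h1, h2⟩
        have h3 : 1 ≤ m := by omega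
        refine ⟨h3, ?_⟩
        have h4 : f m ≤ f M := h.mono m M h3 h2
        have h5 : f M = n + 1 := hM.2
        have h6 : ¬ f m ≤ n := fun h' => by
          have := (ih m h3).1 h'
          omega
        omega
    have hSM : S f n < M := by
      have : M ∈ Set.Ioc (S f n) M := hAeq ▸ hM
      exact this.1
    have hc2 : A.ncard = M - S f n := by
      rw [hAeq, ← Finset.coe_Ioc, Set.ncard_coe_finset, Nat.card_Ioc]
    have hM2 : M = S f (n + 1) := by
      rw [S_succ]
      omega
    intro m hm
    constructor
    · intro hle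
      rcases Nat.lt_or_ge (f m) (n + 1) with hlt | hge
      · have := (ih m hm).1 (by omega)
        omega
      · have hmA : m ∈ A := ⟨hm, by omega⟩
        rw [hAeq] at hmA
        have := hmA.2
        omega
    · intro hle
      rcases Nat.lt_or_ge (S f n) m with hlt | hge
      · have hmA : m ∈ A := by
          rw [hAeq]
          exact ⟨hlt, by omega⟩
        have := hmA.2
        omega
      · have := (ih m hm).2 hge
        omega

theorem IsGol.eq_of (h : IsGol f) {n m : ℕ} (h1 : S f n < m) (h2 : m ≤ S f (n + 1)) :
    f m = n + 1 := by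
  have hm : 1 ≤ m := by omega
  have h3 := (h.le_iff (n + 1) m hm).2 h2
  have h4 : ¬ f m ≤ n := fun h' => by
    have := (h.le_iff n m hm).1 h'
    omega
  omega

theorem S_lt_succ (h : IsGol f) (n : ℕ) : S f n < S f (n + 1) := by
  rw [S_succ]
  have := h.pos (n := n + 1) (by omega)
  omega

theorem S_mono (h : IsGol f) : Monotone (S f) :=
  monotone_nat_of_le_succ fun n => (S_lt_succ h n).le

theorem S_strictMono (h : IsGol f) : StrictMono (S f) :=
  strictMono_nat_of_lt_succ (S_lt_succ h)

theorem S_ge (h : IsGol f) (n : ℕ) : n ≤ S f n := (S_strictMono h).id_le n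

/-- every `m ≥ 1` lies in a block -/
theorem block (h : IsGol f) {m : ℕ} (hm : 1 ≤ m) :
    ∃ n, f m = n + 1 ∧ S f n < m ∧ m ≤ S f (n + 1) := by
  have hpos := h.pos hm
  refine ⟨f m - 1, by omega, ?_, ?_⟩
  · by_contra hle
    have := (h.le_iff (f m - 1) m hm).2 (by omega)
    omega
  · have h1 : f m - 1 + 1 = f m := by omega
    rw [h1]
    exact (h.le_iff (f m) m hm).1 le_rfl

theorem S_add_const (v a c : ℕ) (hv : ∀ i, i < c → f (a + i + 1) = v) :
    S f (a + c) = S f a + c * v := by
  induction c with
  | zero => simp
  | succ c ih =>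
    rw [← add_assoc, S_succ, ih (fun i hi => hv i (by omega)), hv c (by omega)]
    ring

theorem SS_succ (h : IsGol f) (m : ℕ) :
    S f (S f (m + 1)) = S f (S f m) + (m + 1) * f (m + 1) := by
  rw [S_succ f m]
  rw [S_add_const (m + 1) (S f m) (f (m + 1))]
  · ring
  · intro i hi
    apply h.eq_of
    · omega
    · rw [S_succ]
      omega

theorem SSS_block (h : IsGol f) (k x : ℕ) (c : ℕ) (hv : ∀ i, i < c → f (x + i + 1) = k) :
    S f (S f (x + c)) = S f (S f x) + k * (x * c + (c * (c + 1)) / 2) := by
  induction c with
  | zero => simp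
  | succ c ih =>
    rw [← add_assoc, SS_succ h, ih (fun i hi => hv i (by omega)), hv c (by omega)]
    have h1 : (c + 1) * (c + 1 + 1) / 2 = c * (c + 1) / 2 + (c + 1) := by
      have : (c + 1) * (c + 1 + 1) = c * (c + 1) + 2 * (c + 1) := by ring
      rw [this, Nat.add_mul_div_left _ _ (by norm_num)]
    rw [h1]
    ring

/-! ### soundness of the loops -/

theorem inner_zero (j : ℕ) (cont : ℕ → ℕ → ℕ → ℕ → Bool) (k x y z : ℕ) :
    inner j cont 0 k x y z = cont k x y z := rfl

theorem inner_succ (j : ℕ) (cont : ℕ → ℕ → ℕ → ℕ → Bool) (c k x y z : ℕ) :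
    inner j cont (c + 1) k x y z = and (chk j k x y z)
        (inner j cont c (k + 1) (x + j) (y + (k + 1) * j)
          (z + (k + 1) * (x * j + (j * (j + 1)) / 2))) := by
  have e : inner j cont (c + 1) k x y z =
      (force k fun k => force x fun x => force y fun y => force z fun z =>
        and (chk j k x y z)
          (inner j cont c (Nat.succ k) (Nat.add x j) (Nat.add y (Nat.mul (Nat.succ k) j))
            (Nat.add z (Nat.mul (Nat.succ k)
              (Nat.add (Nat.mul x j) (Nat.div (Nat.mul j (Nat.succ j)) 2)))))) := rfl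
  rw [e]
  simp only [force_eq]
  rfl

theorem run_nil (j k x y z : ℕ) :
    run [] j k x y z = and (Nat.ble 9867 k) (Nat.ble 2156146 x) := rfl

theorem run_cons (c : ℕ) (cs : List ℕ) (j k x y z : ℕ) :
    run (c :: cs) j k x y z =
      inner j (fun k x y z => run cs (j + 1) k x y z) c k x y z := by
  have e : run (c :: cs) j k x y z =
      (force j fun j => inner j (fun k x y z => run cs (Nat.succ j) k x y z) c k x y z) := rfl
  rw [e]
  simp only [force_eq]

def Good (f : ℕ → ℕ) (k : ℕ) : Prop :=
  chk (f (k + 1)) k (S f k) (S f (S f k)) (S f (S f (S f k))) = true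

theorem inner_sound (h : IsGol f) (j : ℕ) (cont : ℕ → ℕ → ℕ → ℕ → Bool) (c : ℕ) :
    ∀ k, (∀ i, i < c → f (k + i + 1) = j) →
      inner j cont c k (S f k) (S f (S f k)) (S f (S f (S f k))) = true →
      (∀ i, i < c → Good f (k + i)) ∧
      cont (k + c) (S f (k + c)) (S f (S f (k + c))) (S f (S f (S f (k + c)))) = true := by
  induction c with
  | zero =>
    intro k _ hr
    refine ⟨fun i hi => by omega, ?_⟩
    rw [inner_zero] at hr
    simpa using hr
  | succ c ih =>
    intro k hj hr
    have hr' : (and (chk j k (S f k) (S f (S f k)) (S f (S f (S f k))))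
        (inner j cont c (k + 1) (S f k + j) (S f (S f k) + (k + 1) * j)
          (S f (S f (S f k)) + (k + 1) *
            (S f k * j + (j * (j + 1)) / 2)))) = true := by
      rw [inner_succ] at hr
      exact hr
    rw [Bool.and_eq_true] at hr'
    have hj0 : f (k + 1) = j := by simpa using hj 0 (by omega)
    have e1 : S f k + j = S f (k + 1) := by rw [S_succ, hj0]
    have hblk : ∀ i, i < j → f (S f k + i + 1) = k + 1 := by
      intro i hi
      apply h.eq_of
      · omega
      · rw [← e1]
        omega
    have e2 : S f (S f k) + (k + 1) * j = S f (S f (k + 1)) := by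
      rw [SS_succ h, hj0]
    have e3 : S f (S f (S f k)) + (k + 1) * (S f k * j + (j * (j + 1)) / 2)
        = S f (S f (S f (k + 1))) := by
      rw [← e1]
      exact (SSS_block h (k + 1) (S f k) j hblk).symm
    rw [e1, e2, e3] at hr'
    have hrec := ih (k + 1) (fun i hi => by
      have := hj (i + 1) (by omega)
      rw [show k + 1 + i + 1 = k + (i + 1) + 1 by ring]
      exact this) hr'.2
    constructor
    · intro i hi
      rcases Nat.eq_zero_or_pos i with h0 | hp
      · subst h0
        unfold Good
        simp only [add_zero]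
        rw [hj0]
        exact hr'.1
      · have := hrec.1 (i - 1) (by omega)
        rwa [show k + 1 + (i - 1) = k + i by omega] at this
    · have := hrec.2
      rwa [show k + 1 + c = k + (c + 1) by ring] at this

theorem run_sound (h : IsGol f) (L : List ℕ) :
    ∀ j, (∀ i, i < L.length → L.getD i 0 = f (j + i + 1)) →
      run L (j + 1) (S f j) (S f (S f j)) (S f (S f (S f j))) (S f (S f (S f (S f j)))) = true →
      (∀ k, S f j ≤ k → k < S f (j + L.length) → Good f k) ∧
      9867 ≤ S f (j + L.length) ∧ 2156146 ≤ S f (S f (j + L.length)) := by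
  induction L with
  | nil =>
    intro j _ hr
    have hr' : (and (Nat.ble 9867 (S f j)) (Nat.ble 2156146 (S f (S f j)))) = true := hr
    rw [Bool.and_eq_true] at hr'
    refine ⟨fun k h1 h2 => ?_, ?_, ?_⟩
    · simp only [List.length_nil, add_zero] at h2
      omega
    · simpa using Nat.le_of_ble_eq_true hr'.1
    · simpa using Nat.le_of_ble_eq_true hr'.2
  | cons c cs ih =>
    intro j hL hr
    have hc : c = f (j + 1) := by
      have := hL 0 (by simp)
      simpa using this
    have hr' : inner (j + 1) (fun k x y z => run cs (j + 1 + 1) k x y z) c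
        (S f j) (S f (S f j)) (S f (S f (S f j))) (S f (S f (S f (S f j)))) = true := by
      rw [run_cons] at hr
      exact hr
    have hb : ∀ i, i < c → f (S f j + i + 1) = j + 1 := by
      intro i hi
      apply h.eq_of
      · omega
      · rw [S_succ, ← hc]
        omega
    have hin := inner_sound h (j + 1) _ c (S f j) hb hr'
    have hS : S f j + c = S f (j + 1) := by rw [S_succ, hc]
    rw [hS] at hin
    have hrec := ih (j + 1) (fun i hi => by
      have := hL (i + 1) (by simp; omega)
      rw [show j + 1 + i + 1 = j + (i + 1) + 1 by ring]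
      simpa using this) hin.2
    have hlen : j + 1 + cs.length = j + (c :: cs).length := by
      simp only [List.length_cons]
      ring
    rw [hlen] at hrec
    refine ⟨fun k h1 h2 => ?_, hrec.2⟩
    rcases Nat.lt_or_ge k (S f (j + 1)) with hlt | hge
    · have := hin.1 (k - S f j) (by omega)
      rwa [show S f j + (k - S f j) = k by omega] at this
    · exact hrec.1 k hge h2

/-- consistency check for the table -/
def tabCheck : Bool :=
  (List.range 353).all fun n =>
    Nat.ble n 1 ||
      (let v := T.getD n 0
       Nat.ble 1 v && Nat.ble v n && Nat.ble (n + 1) ((T.take v).sum) &&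
        Nat.ble ((T.take (v - 1)).sum) n)

theorem tabCheck_ok : tabCheck = true := by decide +kernel

theorem T_length : T.length = 353 := by decide +kernel

theorem take_sum (L : List ℕ) (v : ℕ) (hv : v ≤ L.length)
    (hL : ∀ i, i < v → L.getD i 0 = f (i + 1)) : (L.take v).sum = S f v := by
  induction v with
  | zero => simp [S_zero]
  | succ v ih =>
    rw [S_succ, ← ih (by omega) (fun i hi => hL i (by omega)), ← hL v (by omega)]
    rw [List.getD_eq_getElem L 0 (by omega), ← List.sum_take_succ]

theorem T_eq (h : IsGol f) : ∀ n, n < 353 → T.getD n 0 = f (n + 1) := by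
  intro n
  induction n using Nat.strong_induction_on with
  | _ n ih =>
    intro hn
    rcases Nat.lt_or_ge n 2 with hn2 | hn2
    · have h0 : f 1 = 1 := h.one
      have hn01 : n = 0 ∨ n = 1 := by omega
      rcases hn01 with h01 | h01
      · subst h01
        rw [show T.getD 0 0 = 1 by decide +kernel, h0]
      · subst h01
        have hT : T.getD 1 0 = 2 := by decide +kernel
        rw [hT]
        have hS1 : S f 1 = 1 := by rw [S_succ, S_zero, h0]
        have hS2 : S f 2 = 1 + f 2 := by rw [S_succ, hS1]
        have hp := h.pos (n := 2) (by omega)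
        have := h.eq_of (n := 1) (m := 2) (by omega)
          (by rw [show (1 : ℕ) + 1 = 2 from rfl, hS2]; omega)
        simpa using this.symm
    · have hc := tabCheck_ok
      unfold tabCheck at hc
      rw [List.all_eq_true] at hc
      have hcn := hc n (List.mem_range.2 hn)
      set v := T.getD n 0 with hv
      simp only [Bool.or_eq_true, Bool.and_eq_true, Nat.ble_eq] at hcn
      rcases hcn with h1 | ⟨⟨⟨h1, h2⟩, h3⟩, h4⟩
      · omega
      · have e1 : (T.take v).sum = S f v :=
          take_sum T v (by rw [T_length]; omega) (fun i hi => ih i (by omega) (by omega))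
        have e2 : (T.take (v - 1)).sum = S f (v - 1) :=
          take_sum T (v - 1) (by rw [T_length]; omega)
            (fun i hi => ih i (by omega) (by omega))
        rw [e1] at h3
        rw [e2] at h4
        have := h.eq_of (n := v - 1) (m := n + 1) (by omega)
          (by rw [show v - 1 + 1 = v by omega]; omega)
        omega

theorem good_all (h : IsGol f) : (∀ k, k < 9867 → Good f k) := by
  have h0 := run_sound h T 0 (fun i hi => by
    rw [T_length] at hi
    rw [T_eq h i hi]
    simp) (by
      simp only [S_zero]
      exact run_ok)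
  intro k hk
  exact h0.1 k (by rw [S_zero]; omega) (by have := h0.2.1; omega)

end H246R3.Golomb
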