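import Mathlib
import Pool.Agent.H246R3.Golomb.Ana
import Pool.Agent.H246R3.Golomb.Seq

set_option autoImplicit false

namespace H246R3.Golomb

variable {f : ℕ → ℕ}

theorem chk_spec {j k x y z : ℕ} (hk : 350 ≤ k) (h : chk j k x y z = true) :
    up BU x (y + 2 * j) = true ∧ lo BLo x y = true ∧ 1000 * ((k - 1) * x) ≤ 1618 * y ∧
      (1010 ≤ k → k ≤ 8166 → up BL x (y + 2 * j) = true) ∧
      (k = 1010 → lo BN y z = true ∧ up BNU y z = true) := by
  have e1 : Nat.ble 350 k = true := by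
    rw [Nat.ble_eq]
    exact hk
  unfold chk at h
  rw [e1] at h
  simp only [Bool.and_eq_true] at h
  obtain ⟨h1, h2, h3, h4, h5⟩ := h
  refine ⟨h1, h2, Nat.le_of_ble_eq_true h3, ?_, ?_⟩
  · intro hk1 hk2
    have e2 : Nat.ble 1010 k = true := by
      rw [Nat.ble_eq]
      exact hk1
    have e3 : Nat.ble k 8166 = true := by
      rw [Nat.ble_eq]
      exact hk2
    rw [e2] at h4
    simp only at h4
    rw [e3] at h4
    exact h4
  · intro hk1
    subst hk1
    have e4 : Nat.beq 1010 1010 = true := by decide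
    rw [e4] at h5
    simp only [Bool.and_eq_true] at h5
    exact h5

theorem S_block (h : IsGol f) {k n : ℕ} (h1 : S f k ≤ n) (h2 : n ≤ S f (k + 1)) :
    S f n = S f (S f k) + (n - S f k) * (k + 1) := by
  obtain ⟨i, rfl⟩ := Nat.exists_eq_add_of_le h1
  rw [S_add_const (k + 1) (S f k) i]
  · congr 2
    omega
  · intro i' hi'
    apply h.eq_of
    · omega
    · omega

theorem seg_up (h : IsGol f) {k n : ℕ} (hk : 1 ≤ k) (s : ℝ) (hs : 0 < s)
    (h1 : (S f (S f k) : ℝ) + 2 * f (k + 1) ≤ s * Phi (S f k))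
    (h2 : 1000 * (((k : ℝ) - 1) * S f k) ≤ 1618 * S f (S f k))
    (hn1 : S f k ≤ n) (hn2 : n ≤ S f (k + 1)) : (S f n : ℝ) ≤ s * Phi n := by
  have hx : 1 ≤ S f k := le_trans hk (S_ge h k)
  have hx' : (0 : ℝ) < S f k := by exact_mod_cast hx
  have e := S_block h hn1 hn2
  have e' : (S f n : ℝ) = S f (S f k) + ((n : ℝ) - S f k) * ((k : ℝ) + 1) := by
    rw [e]
    push_cast [Nat.cast_sub hn1]
    ring
  have hd0 : (0 : ℝ) ≤ (n : ℝ) - S f k := by
    have : (S f k : ℝ) ≤ n := by exact_mod_cast hn1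
    linarith
  have hd1 : (n : ℝ) - S f k ≤ f (k + 1) := by
    rw [S_succ] at hn2
    have : (n : ℝ) ≤ S f k + f (k + 1) := by exact_mod_cast hn2
    linarith
  have htan := Phi_tangent hx' (y := n) (by positivity)
  have hslope : (k : ℝ) + 1 ≤ 2 + s * phi (S f k) := by
    have h3 := phi_mul_self hx'
    have h4 : ((k : ℝ) - 1) * S f k ≤ s * phi (S f k) * S f k := by
      have h5 : (S f (S f k) : ℝ) ≤ s * Phi (S f k) := by
        have : (0 : ℝ) ≤ f (k + 1) := Nat.cast_nonneg _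
        linarith
      have h6 : (0 : ℝ) ≤ S f (S f k) := Nat.cast_nonneg _
      have h7 : s * phi (S f k) * S f k = t * (s * Phi (S f k)) := by
        rw [mul_assoc, h3]
        ring
      rw [h7]
      have ht := t_lo
      nlinarith [mul_le_mul_of_nonneg_left h5 t_pos.le, mul_le_mul_of_nonneg_right ht.le h6]
    have h8 := le_of_mul_le_mul_right h4 hx'
    linarith
  rw [e']
  have h9 : ((n : ℝ) - S f k) * ((k : ℝ) + 1) ≤
      ((n : ℝ) - S f k) * (2 + s * phi (S f k)) := mul_le_mul_of_nonneg_left hslope hd0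
  nlinarith [mul_le_mul_of_nonneg_left htan hs.le]

theorem seg_lo (h : IsGol f) {k n : ℕ} (hk : 1 ≤ k) (s : ℝ) (hs : 0 < s)
    (h1 : s * Phi (S f k) ≤ (S f (S f k) : ℝ))
    (h2 : s * Phi (S f (k + 1)) ≤ (S f (S f (k + 1)) : ℝ))
    (hn1 : S f k ≤ n) (hn2 : n ≤ S f (k + 1)) : s * Phi n ≤ (S f n : ℝ) := by
  have hx : 1 ≤ S f k := le_trans hk (S_ge h k)
  have hn0 : (0 : ℝ) < n := by
    have : 1 ≤ n := le_trans hx hn1
    exact_mod_cast this
  have e := S_block h hn1 hn2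
  have e' : (S f n : ℝ) = S f (S f k) + ((n : ℝ) - S f k) * ((k : ℝ) + 1) := by
    rw [e]
    push_cast [Nat.cast_sub hn1]
    ring
  have e1 := S_block h (k := k) (n := S f (k + 1)) (S_lt_succ h k).le le_rfl
  have e1' : (S f (S f (k + 1)) : ℝ) =
      S f (S f k) + ((S f (k + 1) : ℝ) - S f k) * ((k : ℝ) + 1) := by
    rw [e1]
    push_cast [Nat.cast_sub (S_lt_succ h k).le]
    ring
  have hd0 : (0 : ℝ) ≤ (n : ℝ) - S f k := by
    have : (S f k : ℝ) ≤ n := by exact_mod_cast hn1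
    linarith
  have hd1 : (0 : ℝ) ≤ (S f (k + 1) : ℝ) - n := by
    have : (n : ℝ) ≤ S f (k + 1) := by exact_mod_cast hn2
    linarith
  have ht0 := Phi_tangent hn0 (y := S f k) (by positivity)
  have ht1 := Phi_tangent hn0 (y := S f (k + 1)) (by positivity)
  rcases le_total (s * phi n) ((k : ℝ) + 1) with hc | hc
  · rw [e']
    nlinarith [mul_le_mul_of_nonneg_left ht0 hs.le, mul_le_mul_of_nonneg_left hc hd0]
  · have e2 : (S f n : ℝ) = S f (S f (k + 1)) - ((S f (k + 1) : ℝ) - n) * ((k : ℝ) + 1) := by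
      rw [e', e1']
      ring
    rw [e2]
    nlinarith [mul_le_mul_of_nonneg_left ht1 hs.le, mul_le_mul_of_nonneg_left hc hd1]

theorem node (h : IsGol f) {k : ℕ} (hk : 350 ≤ k) (hk2 : k < 9867) :
    (S f (S f k) : ℝ) + 2 * f (k + 1) ≤ 1.00036 * Phi (S f k) ∧
      0.999634 * Phi (S f k) ≤ (S f (S f k) : ℝ) ∧
      1000 * (((k : ℝ) - 1) * S f k) ≤ 1618 * S f (S f k) ∧
      (1010 ≤ k → k ≤ 8166 →
        (S f (S f k) : ℝ) + 2 * f (k + 1) ≤ 0.999828 * Phi (S f k)) ∧
      (k = 1010 → 1.00011 * Phi (S f (S f k)) ≤ S f (S f (S f k)) ∧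
        (S f (S f (S f k)) : ℝ) ≤ 1.00025 * Phi (S f (S f k))) := by
  have hg := good_all h k hk2
  have hx : 2 ≤ S f k := le_trans (by omega) (S_ge h k)
  have hy : 2 ≤ S f (S f k) := le_trans hx (S_ge h _)
  obtain ⟨h1, h2, h3, h4, h5⟩ := chk_spec hk hg
  refine ⟨?_, lo_sound BLo _ (by norm_num) hBLo hx h2, ?_, ?_, ?_⟩
  · have := up_sound BU _ (by norm_num) hBU hx h1
    push_cast at this
    exact this
  · have hk1 : ((k - 1 : ℕ) : ℝ) = (k : ℝ) - 1 := by
      rw [Nat.cast_sub (by omega)]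
      simp
    rw [← hk1]
    exact_mod_cast h3
  · intro ha hb
    have := up_sound BL _ (by norm_num) hBL hx (h4 ha hb)
    push_cast at this
    exact this
  · intro hk'
    exact ⟨lo_sound BN _ (by norm_num) hBN hy (h5 hk').1,
      up_sound BNU _ (by norm_num) hBNU hy (h5 hk').2⟩

/-- locate `n` -/
theorem locate (h : IsGol f) (n : ℕ) : ∃ k, S f k ≤ n ∧ n < S f (k + 1) := by
  obtain ⟨k, _, h1, h2⟩ := block h (m := n + 1) (by omega)
  exact ⟨k, by omega, by omega⟩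

theorem base_up (h : IsGol f) {n : ℕ} (h1 : S f 350 ≤ n) (h2 : n < S f 9867) :
    (S f n : ℝ) ≤ 1.00036 * Phi n := by
  obtain ⟨k, hk1, hk2⟩ := locate h n
  have hka : 350 < k + 1 := (S_strictMono h).lt_iff_lt.1 (lt_of_le_of_lt h1 hk2)
  have hkb : k < 9867 := (S_strictMono h).lt_iff_lt.1 (lt_of_le_of_lt hk1 h2)
  obtain ⟨a1, a2, a3, a4, a5⟩ := node h (k := k) (by omega) hkb
  exact seg_up h (by omega) _ (by norm_num) a1 a3 hk1 hk2.le

theorem base_lo (h : IsGol f) {n : ℕ} (h1 : S f 350 ≤ n) (h2 : n < S f 9866) :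
    0.999634 * Phi n ≤ (S f n : ℝ) := by
  obtain ⟨k, hk1, hk2⟩ := locate h n
  have hka : 350 < k + 1 := (S_strictMono h).lt_iff_lt.1 (lt_of_le_of_lt h1 hk2)
  have hkb : k < 9866 := (S_strictMono h).lt_iff_lt.1 (lt_of_le_of_lt hk1 h2)
  obtain ⟨a1, a2, a3, a4, a5⟩ := node h (k := k) (by omega) (by omega)
  obtain ⟨b1, b2, b3, b4, b5⟩ := node h (k := k + 1) (by omega) (by omega)
  exact seg_lo h (by omega) _ (by norm_num) a2 b2 hk1 hk2.le

theorem base_L (h : IsGol f) {n : ℕ} (h1 : S f 1010 ≤ n) (h2 : n ≤ S f 8166) :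
    (S f n : ℝ) ≤ 0.999828 * Phi n := by
  obtain ⟨k, hk1, hk2⟩ := locate h n
  have hka : 1010 < k + 1 := (S_strictMono h).lt_iff_lt.1 (lt_of_le_of_lt h1 hk2)
  have hkb : k < 8167 := (S_strictMono h).lt_iff_lt.1
    (lt_of_le_of_lt (hk1.trans h2) (S_lt_succ h 8166))
  obtain ⟨a1, a2, a3, a4, a5⟩ := node h (k := k) (by omega) (by omega)
  exact seg_up h (by omega) _ (by norm_num) (a4 (by omega) (by omega)) a3 hk1 hk2.le

/-! ### exact values -/

def valStep (s : ℕ × ℕ × ℕ × ℕ) (c : ℕ) : ℕ × ℕ × ℕ × ℕ :=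
  (s.1 + 1, s.2.1 + c, s.2.2.1 + (s.1 + 1) * c,
    s.2.2.2 + (s.1 + 1) * (s.2.1 * c + c * (c + 1) / 2))

theorem vals_sound (h : IsGol f) (v : ℕ) (hv : v ≤ 353) :
    (T.take v).foldl valStep (0, 0, 0, 0) = (v, S f v, S f (S f v), S f (S f (S f v))) := by
  induction v with
  | zero => simp [S_zero]
  | succ v ih =>
    have hlen : v < T.length := by rw [T_length]; omega
    rw [List.take_succ_eq_append_getElem hlen, List.foldl_append, ih (by omega)]
    have hg : T[v] = f (v + 1) := by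
      rw [← T_eq h v (by omega), List.getD_eq_getElem T 0 hlen]
    simp only [List.foldl_cons, List.foldl_nil, hg, valStep]
    have hblk : ∀ i, i < f (v + 1) → f (S f v + i + 1) = v + 1 := by
      intro i hi
      apply h.eq_of
      · omega
      · rw [S_succ]
        omega
    rw [← SS_succ h, ← SSS_block h (v + 1) (S f v) (f (v + 1)) hblk, ← S_succ]

theorem vals86 (h : IsGol f) : S f 86 = 1010 ∧ S f 1010 = 54020 ∧ S f 54020 = 33740719 := by
  have h1 := vals_sound h 86 (by norm_num)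
  have h2 : (T.take 86).foldl valStep (0, 0, 0, 0) = (86, 1010, 54020, 33740719) := by
    decide +kernel
  rw [h2] at h1
  simp only [Prod.mk.injEq] at h1
  obtain ⟨_, a, b, c⟩ := h1
  rw [← a] at b c
  rw [← b] at c
  exact ⟨a.symm, b.symm, c.symm⟩

theorem vals314 (h : IsGol f) :
    S f 314 = 8166 ∧ S f 8166 = 1587589 ∧ S f 1587589 = 8012366431 := by
  have h1 := vals_sound h 314 (by norm_num)
  have h2 : (T.take 314).foldl valStep (0, 0, 0, 0) = (314, 8166, 1587589, 8012366431) := by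
    decide +kernel
  rw [h2] at h1
  simp only [Prod.mk.injEq] at h1
  obtain ⟨_, a, b, c⟩ := h1
  rw [← a] at b c
  rw [← b] at c
  exact ⟨a.symm, b.symm, c.symm⟩

theorem vals350 (h : IsGol f) : S f 350 = 9732 := by
  have h1 := vals_sound h 350 (by norm_num)
  have h2 : (T.take 350).foldl valStep (0, 0, 0, 0) = (350, 9732, 2108626, 12682736525) := by
    decide +kernel
  rw [h2] at h1
  simp only [Prod.mk.injEq] at h1
  exact h1.2.1.symm

end H246R3.Golomb
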