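import Mathlib
import Pool.Agent.H246R3.Golomb.Base

set_option autoImplicit false

namespace H246R3.Golomb

variable {f : ℕ → ℕ}

open Real in
theorem SP (h : IsGol f) {k n : ℕ} (hk : 1 ≤ k) (x : ℝ)
    (hlo : exp x * Phi k ≤ S f k) (hn : S f k < n) (hf : f n = k + 1) :
    (f n : ℝ) ≤ (1 + 1 / (k : ℝ)) * (exp (-((t - 1) * x)) * phi n) := by
  have hk' : (0 : ℝ) < k := by exact_mod_cast hk
  have h1 : exp ((t - 1) * x) * k ≤ phi n := by
    calc exp ((t - 1) * x) * k = phi (exp x * Phi k) := by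
          rw [phi_exp (Phi_nonneg hk'.le), phi_Phi hk'.le]
      _ ≤ phi (S f k) := phi_mono (mul_nonneg (exp_pos _).le (Phi_nonneg hk'.le)) hlo
      _ ≤ phi n := phi_mono (Nat.cast_nonneg _) (by exact_mod_cast hn.le)
  have h2 : (k : ℝ) ≤ exp (-((t - 1) * x)) * phi n := by
    have h3 := mul_le_mul_of_nonneg_left h1 (exp_pos (-((t - 1) * x))).le
    rw [← mul_assoc, ← exp_add] at h3
    simpa using h3
  rw [hf]
  push_cast
  have h4 : (k : ℝ) + 1 = (1 + 1 / (k : ℝ)) * k := by field_simp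
  rw [h4]
  exact mul_le_mul_of_nonneg_left h2 (by positivity)

open Real in
theorem SM (h : IsGol f) {k n : ℕ} (x : ℝ)
    (hup : (S f (k + 1) : ℝ) ≤ exp x * Phi ((k + 1 : ℕ) : ℝ)) (hn : n ≤ S f (k + 1))
    (hf : f n = k + 1) :
    exp (-((t - 1) * x)) * phi n ≤ (f n : ℝ) := by
  have hk' : (0 : ℝ) < ((k + 1 : ℕ) : ℝ) := by exact_mod_cast Nat.succ_pos k
  have h1 : phi n ≤ exp ((t - 1) * x) * ((k + 1 : ℕ) : ℝ) := by
    calc phi n ≤ phi (S f (k + 1)) := phi_mono (Nat.cast_nonneg _) (by exact_mod_cast hn)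
      _ ≤ phi (exp x * Phi ((k + 1 : ℕ) : ℝ)) := phi_mono (Nat.cast_nonneg _) hup
      _ = exp ((t - 1) * x) * ((k + 1 : ℕ) : ℝ) := by
          rw [phi_exp (Phi_nonneg hk'.le), phi_Phi hk'.le]
  have h3 := mul_le_mul_of_nonneg_left h1 (exp_pos (-((t - 1) * x))).le
  rw [← mul_assoc, ← exp_add] at h3
  rw [hf]
  simpa using h3

open Real in
/-- from a lower bound of `S` on `[a,b)` to an upper bound on `[S a, S b]` -/
theorem lemA (h : IsGol f) {a b : ℕ} (ha : 1 ≤ a) (x : ℝ)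
    (hlo : ∀ k, a ≤ k → k < b → exp x * Phi k ≤ S f k) :
    ∀ n, S f a ≤ n → n ≤ S f b →
      (S f n : ℝ) ≤ S f (S f a) +
        exp (-((t - 1) * x) + 1 / (a : ℝ) + 1 / (S f a : ℝ)) * (Phi n - Phi (S f a)) := by
  intro n hn
  have ha' : (0 : ℝ) < a := by exact_mod_cast ha
  have hSa : 1 ≤ S f a := le_trans ha (S_ge h a)
  have hSa' : (0 : ℝ) < S f a := by exact_mod_cast hSa
  induction n, hn using Nat.le_induction with
  | base => intro _; simp
  | succ n hn ih =>
    intro hnb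
    have ih' := ih (by omega)
    obtain ⟨k, hk1, hk2, hk3⟩ := block h (m := n + 1) (by omega)
    have hka : a < k + 1 := (S_strictMono h).lt_iff_lt.1 (by omega)
    have hkb : k < b := (S_strictMono h).lt_iff_lt.1 (by omega)
    have hkpos : 1 ≤ k := by omega
    have h1 := SP h hkpos x (hlo k (by omega) hkb) hk2 hk1
    have hn' : (0 : ℝ) < n := by
      have : 1 ≤ n := by omega
      exact_mod_cast this
    have h2 := phi_succ_le hn'
    have hak : (a : ℝ) ≤ k := by exact_mod_cast (by omega : a ≤ k)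
    have hSn : (S f a : ℝ) ≤ n := by exact_mod_cast hn
    have h3 : 1 + 1 / (k : ℝ) ≤ exp (1 / (a : ℝ)) := by
      have : 1 / (k : ℝ) ≤ 1 / a := one_div_le_one_div_of_le ha' hak
      linarith [add_one_le_exp (1 / (a : ℝ))]
    have h4 : 1 + 1 / (n : ℝ) ≤ exp (1 / (S f a : ℝ)) := by
      have : 1 / (n : ℝ) ≤ 1 / S f a := one_div_le_one_div_of_le hSa' hSn
      linarith [add_one_le_exp (1 / (S f a : ℝ))]
    have hD : 0 ≤ Phi ((n : ℝ) + 1) - Phi n := by
      have := Phi_mono hn'.le (show (n : ℝ) ≤ n + 1 by linarith)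
      linarith
    have h5 : (f (n + 1) : ℝ) ≤
        exp (-((t - 1) * x) + 1 / (a : ℝ) + 1 / (S f a : ℝ)) * (Phi ((n : ℝ) + 1) - Phi n) := by
      have hcast : ((n + 1 : ℕ) : ℝ) = (n : ℝ) + 1 := by push_cast; ring
      rw [hcast] at h1
      calc (f (n + 1) : ℝ) ≤ (1 + 1 / (k : ℝ)) * (exp (-((t - 1) * x)) * phi ((n : ℝ) + 1)) := h1
        _ ≤ exp (1 / (a : ℝ)) * (exp (-((t - 1) * x)) *
            (exp (1 / (S f a : ℝ)) * (Phi ((n : ℝ) + 1) - Phi n))) := by
            apply mul_le_mul h3 _ _ (exp_pos _).le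
            · apply mul_le_mul_of_nonneg_left _ (exp_pos _).le
              exact h2.trans (mul_le_mul_of_nonneg_right h4 hD)
            · exact mul_nonneg (exp_pos _).le (phi_nonneg (by linarith))
        _ = _ := by
            rw [exp_add, exp_add]
            ring
    rw [S_succ]
    push_cast
    have e : exp (-((t - 1) * x) + 1 / (a : ℝ) + 1 / (S f a : ℝ)) * (Phi ((n : ℝ) + 1) - Phi (S f a))
        = exp (-((t - 1) * x) + 1 / (a : ℝ) + 1 / (S f a : ℝ)) * (Phi n - Phi (S f a)) +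
          exp (-((t - 1) * x) + 1 / (a : ℝ) + 1 / (S f a : ℝ)) * (Phi ((n : ℝ) + 1) - Phi n) := by
      ring
    rw [e]
    linarith

open Real in
/-- from an upper bound of `S` on `(a,b]` to a lower bound on `[S a, S b]` -/
theorem lemB (h : IsGol f) {a b : ℕ} (ha : 1 ≤ a) (x : ℝ)
    (hup : ∀ k : ℕ, a < k → k ≤ b → (S f k : ℝ) ≤ exp x * Phi k) :
    ∀ n, S f a ≤ n → n ≤ S f b →
      S f (S f a) + exp (-((t - 1) * x)) * (Phi n - Phi (S f a)) ≤ (S f n : ℝ) := by
  intro n hn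
  have ha' : (0 : ℝ) < a := by exact_mod_cast ha
  have hSa : 1 ≤ S f a := le_trans ha (S_ge h a)
  induction n, hn using Nat.le_induction with
  | base => intro _; simp
  | succ n hn ih =>
    intro hnb
    have ih' := ih (by omega)
    obtain ⟨k, hk1, hk2, hk3⟩ := block h (m := n + 1) (by omega)
    have hka : a < k + 1 := (S_strictMono h).lt_iff_lt.1 (by omega)
    have hkb : k < b := (S_strictMono h).lt_iff_lt.1 (by omega)
    have h1 := SM h x (hup (k + 1) (by omega) (by omega)) hk3 hk1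
    have hn' : (0 : ℝ) < n := by
      have : 1 ≤ n := by omega
      exact_mod_cast this
    have hcast : ((n + 1 : ℕ) : ℝ) = (n : ℝ) + 1 := by push_cast; ring
    rw [hcast] at h1
    have h2 : Phi ((n : ℝ) + 1) - Phi n ≤ phi ((n : ℝ) + 1) := by
      have := Phi_sub_le (x := (n : ℝ) + 1) (by linarith) (by linarith)
      simpa using this
    have h5 : exp (-((t - 1) * x)) * (Phi ((n : ℝ) + 1) - Phi n) ≤ (f (n + 1) : ℝ) :=
      (mul_le_mul_of_nonneg_left h2 (exp_pos _).le).trans h1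
    rw [S_succ]
    push_cast
    have e : exp (-((t - 1) * x)) * (Phi ((n : ℝ) + 1) - Phi (S f a))
        = exp (-((t - 1) * x)) * (Phi n - Phi (S f a)) +
          exp (-((t - 1) * x)) * (Phi ((n : ℝ) + 1) - Phi n) := by
      ring
    rw [e]
    linarith

theorem exp_sub_one_le {d : ℝ} (h0 : 0 ≤ d) (h1 : d ≤ 0.01) :
    Real.exp d - 1 ≤ 1.02 * d := by
  have h2 : 1 - d ≤ Real.exp (-d) := by linarith [Real.add_one_le_exp (-d)]
  have h3 : Real.exp d * Real.exp (-d) = 1 := by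
    rw [← Real.exp_add]
    simp
  have h4 : Real.exp d * (1 - d) ≤ 1 := by
    have := mul_le_mul_of_nonneg_left h2 (Real.exp_pos d).le
    rwa [h3] at this
  have h5 : Real.exp d ≤ 1.02 := by
    have : Real.exp d * 0.99 ≤ 1 := by
      nlinarith [Real.exp_pos d]
    nlinarith
  nlinarith

theorem NL1 {m d e : ℝ} (h0 : 0 ≤ d) (h1 : d ≤ 0.01) (he : 0 ≤ e) :
    Real.exp m + (Real.exp (m + d) - Real.exp m) * e ≤ Real.exp (m + 1.02 * d * e) := by
  have h2 := exp_sub_one_le h0 h1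
  rw [Real.exp_add m d, Real.exp_add m (1.02 * d * e)]
  have h3 : (Real.exp d - 1) * e ≤ 1.02 * d * e := mul_le_mul_of_nonneg_right h2 he
  have h4 := Real.add_one_le_exp (1.02 * d * e)
  have h5 : Real.exp m + (Real.exp m * Real.exp d - Real.exp m) * e
      = Real.exp m * (1 + (Real.exp d - 1) * e) := by ring
  rw [h5]
  exact mul_le_mul_of_nonneg_left (by linarith) (Real.exp_pos _).le

theorem NL2 {m d e : ℝ} (h0 : 0 ≤ d) (h1 : d ≤ 0.01) (he : 0 ≤ e) (he1 : e ≤ 1) :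
    Real.exp (m - 1.02 * d * e) ≤ Real.exp m - (Real.exp m - Real.exp (m - d)) * e := by
  have h2 : 1 - d ≤ Real.exp (-d) := by linarith [Real.add_one_le_exp (-d)]
  have e1 : Real.exp (m - d) = Real.exp m * Real.exp (-d) := by
    rw [← Real.exp_add]
    rfl
  have e2 : Real.exp (m - 1.02 * d * e) = Real.exp m * Real.exp (-(1.02 * d * e)) := by
    rw [← Real.exp_add]
    rfl
  rw [e1, e2]
  have h5 : Real.exp m - (Real.exp m - Real.exp m * Real.exp (-d)) * e
      = Real.exp m * (1 - (1 - Real.exp (-d)) * e) := by ring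
  rw [h5]
  apply mul_le_mul_of_nonneg_left _ (Real.exp_pos _).le
  set y := d * e with hy
  have hy0 : 0 ≤ y := mul_nonneg h0 he
  have hy1 : y ≤ 0.01 := by nlinarith
  have h6 : (1 - Real.exp (-d)) * e ≤ y := by nlinarith
  have h7 : Real.exp (-(1.02 * d * e)) * (1 + 1.02 * y) ≤ 1 := by
    have h8 := Real.add_one_le_exp (1.02 * d * e)
    have h9 : Real.exp (-(1.02 * d * e)) * Real.exp (1.02 * d * e) = 1 := by
      rw [← Real.exp_add]
      simp
    rw [← h9]
    apply mul_le_mul_of_nonneg_left _ (Real.exp_pos _).le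
    rw [hy]
    linarith
  have h10 : Real.exp (-(1.02 * d * e)) ≤ 1 - y := by
    have h11 : 1 ≤ (1 - y) * (1 + 1.02 * y) := by nlinarith
    have h12 : 0 < 1 + 1.02 * y := by linarith
    exact le_of_mul_le_mul_right (h7.trans h11) h12
  linarith

open Real in
/-- upper bound step with a loss at the left end -/
theorem stepUp (h : IsGol f) {a b K : ℕ} (ha : 1 ≤ a) (x z e y : ℝ)
    (hlo : ∀ k : ℕ, a ≤ k → k < b → exp x * Phi k ≤ S f k)
    (hleft : (S f (S f a) : ℝ) ≤ exp z * Phi (S f a))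
    (he : 0 ≤ e) (hK : 1 ≤ e * (K : ℝ) ^ t)
    (hz0 : -((t - 1) * x) + 1 / (a : ℝ) + 1 / (S f a : ℝ) ≤ z)
    (hz1 : z - (-((t - 1) * x) + 1 / (a : ℝ) + 1 / (S f a : ℝ)) ≤ 0.01)
    (hy : (-((t - 1) * x) + 1 / (a : ℝ) + 1 / (S f a : ℝ)) +
      1.02 * (z - (-((t - 1) * x) + 1 / (a : ℝ) + 1 / (S f a : ℝ))) * e ≤ y) :
    ∀ n, K * S f a ≤ n → S f a ≤ n → n ≤ S f b → (S f n : ℝ) ≤ exp y * Phi n := by
  intro n hn hn1 hnb
  have hA := lemA h ha x hlo n hn1 hnb
  set m := -((t - 1) * x) + 1 / (a : ℝ) + 1 / (S f a : ℝ) with hm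
  have hPn : 0 ≤ Phi n := Phi_nonneg (Nat.cast_nonneg _)
  have h1 : Phi (S f a) ≤ e * Phi n := by
    have h2 : (K : ℝ) ^ t * Phi (S f a) ≤ Phi n := by
      rw [← Phi_mul (Nat.cast_nonneg _) (Nat.cast_nonneg _)]
      exact Phi_mono (by positivity) (by exact_mod_cast hn)
    have h3 := mul_le_mul_of_nonneg_left h2 he
    have h4 := mul_le_mul_of_nonneg_right hK (Phi_nonneg (Nat.cast_nonneg (S f a)))
    nlinarith
  have h5 := NL1 (m := m) (d := z - m) (e := e) (by linarith) hz1 he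
  have h6 : m + (z - m) = z := by ring
  rw [h6] at h5
  have hzm : exp m ≤ exp z := exp_le_exp.2 hz0
  calc (S f n : ℝ) ≤ S f (S f a) + exp m * (Phi n - Phi (S f a)) := hA
    _ ≤ exp z * Phi (S f a) + exp m * (Phi n - Phi (S f a)) := by linarith
    _ = exp m * Phi n + (exp z - exp m) * Phi (S f a) := by ring
    _ ≤ exp m * Phi n + (exp z - exp m) * (e * Phi n) := by
        have := mul_le_mul_of_nonneg_left h1 (sub_nonneg.2 hzm)
        linarith
    _ = (exp m + (exp z - exp m) * e) * Phi n := by ring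
    _ ≤ exp (m + 1.02 * (z - m) * e) * Phi n := mul_le_mul_of_nonneg_right h5 hPn
    _ ≤ exp y * Phi n := mul_le_mul_of_nonneg_right (exp_le_exp.2 hy) hPn

open Real in
/-- lower bound step with a loss at the left end -/
theorem stepLo (h : IsGol f) {a b K : ℕ} (ha : 1 ≤ a) (x z e y : ℝ)
    (hup : ∀ k : ℕ, a < k → k ≤ b → (S f k : ℝ) ≤ exp x * Phi k)
    (hleft : exp (-z) * Phi (S f a) ≤ (S f (S f a) : ℝ))
    (he : 0 ≤ e) (he1 : e ≤ 1) (hK : 1 ≤ e * (K : ℝ) ^ t)
    (hz0 : -z ≤ -((t - 1) * x))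
    (hz1 : -((t - 1) * x) + z ≤ 0.01)
    (hy : y ≤ -((t - 1) * x) - 1.02 * (-((t - 1) * x) + z) * e) :
    ∀ n, K * S f a ≤ n → S f a ≤ n → n ≤ S f b → exp y * Phi n ≤ (S f n : ℝ) := by
  intro n hn hn1 hnb
  have hB := lemB h ha x hup n hn1 hnb
  set m := -((t - 1) * x) with hm
  have hPn : 0 ≤ Phi n := Phi_nonneg (Nat.cast_nonneg _)
  have h1 : Phi (S f a) ≤ e * Phi n := by
    have h2 : (K : ℝ) ^ t * Phi (S f a) ≤ Phi n := by
      rw [← Phi_mul (Nat.cast_nonneg _) (Nat.cast_nonneg _)]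
      exact Phi_mono (by positivity) (by exact_mod_cast hn)
    have h3 := mul_le_mul_of_nonneg_left h2 he
    have h4 := mul_le_mul_of_nonneg_right hK (Phi_nonneg (Nat.cast_nonneg (S f a)))
    nlinarith
  have h5 := NL2 (m := m) (d := m + z) (e := e) (by linarith) hz1 he he1
  have h6 : m - (m + z) = -z := by ring
  rw [h6] at h5
  have hzm : exp (-z) ≤ exp m := exp_le_exp.2 hz0
  calc exp y * Phi n ≤ exp (m - 1.02 * (m + z) * e) * Phi n :=
        mul_le_mul_of_nonneg_right (exp_le_exp.2 hy) hPn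
    _ ≤ (exp m - (exp m - exp (-z)) * e) * Phi n := mul_le_mul_of_nonneg_right h5 hPn
    _ = exp m * Phi n - (exp m - exp (-z)) * (e * Phi n) := by ring
    _ ≤ exp m * Phi n - (exp m - exp (-z)) * Phi (S f a) := by
        have := mul_le_mul_of_nonneg_left h1 (sub_nonneg.2 hzm)
        linarith
    _ = exp (-z) * Phi (S f a) + exp m * (Phi n - Phi (S f a)) := by ring
    _ ≤ S f (S f a) + exp m * (Phi n - Phi (S f a)) := by linarith
    _ ≤ S f n := hB

end H246R3.Golomb
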