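import Mathlib
import Pool.Agent.H246R3.Golomb.Step

set_option autoImplicit false

namespace H246R3.Golomb

variable {f : ℕ → ℕ}

attribute [local irreducible] S T Phi phi t

open Real

theorem n1 : (-0.00037 : ℝ) ≤ -((t - 1) * 0.00037) := by linarith [t_lo, t_hi]
theorem n2 : (1 / 9865 + (-((t - 1) * (-0.00037))) + 1 / 2000000 : ℝ) ≤ 0.00037 := by
  linarith [t_lo, t_hi]
theorem n3 : (-0.00024 : ℝ) ≤ -((t - 1) * 0.00037) := by linarith [t_lo, t_hi]
theorem n4 : -((t - 1) * 0.00037) + 0.00024 ≤ (0.01 : ℝ) := by linarith [t_lo, t_hi]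
theorem n5 : (-0.00026 : ℝ) ≤ -((t - 1) * 0.00037) - 1.02 * (-((t - 1) * 0.00037) + 0.00024) * 1 := by
  linarith [t_lo, t_hi]
theorem n6 : -((t - 1) * (-0.00037)) + 1 / ((54020 : ℕ) : ℝ) + 1 / ((33740719 : ℕ) : ℝ)
    ≤ (0.00025 : ℝ) := by
  norm_num
  linarith [t_lo, t_hi]
theorem n7 : 0.00025 - (-((t - 1) * (-0.00037)) + 1 / ((54020 : ℕ) : ℝ) +
    1 / ((33740719 : ℕ) : ℝ)) ≤ (0.01 : ℝ) := by
  norm_num
  linarith [t_lo, t_hi]
theorem n8 : (-((t - 1) * (-0.00037)) + 1 / ((54020 : ℕ) : ℝ) + 1 / ((33740719 : ℕ) : ℝ)) +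
    1.02 * (0.00025 - (-((t - 1) * (-0.00037)) + 1 / ((54020 : ℕ) : ℝ) +
      1 / ((33740719 : ℕ) : ℝ))) * 1 ≤ (0.00026 : ℝ) := by
  norm_num
  linarith [t_lo, t_hi]
theorem n9 : -(-0.0001055) ≤ -((t - 1) * (-0.000172 : ℝ)) := by
  linarith [t_lo, t_hi]
theorem n10 : -((t - 1) * (-0.000172 : ℝ)) + (-0.0001055) ≤ 0.01 := by
  linarith [t_lo, t_hi]
theorem n11 : (0.000105 : ℝ) ≤ -((t - 1) * (-0.000172 : ℝ)) -
    1.02 * (-((t - 1) * (-0.000172 : ℝ)) + (-0.0001055)) * 1 := by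
  linarith [t_lo, t_hi]

theorem vals350b (h : IsGol f) : S f 9732 = 2108626 := by
  have h1 := vals_sound h 350 (by norm_num)
  have h2 : (T.take 350).foldl valStep (0, 0, 0, 0) = (350, 9732, 2108626, 12682736525) := by
    decide +kernel
  rw [h2] at h1
  simp only [Prod.mk.injEq] at h1
  obtain ⟨_, a, b, c⟩ := h1
  rw [← a] at b
  exact b.symm

theorem e1 : (1.00036 : ℝ) ≤ exp 0.00037 := by
  linarith [add_one_le_exp (0.00037 : ℝ)]

theorem exp_neg_le {x : ℝ} (h0 : 0 ≤ x) : exp (-x) ≤ 1 / (1 + x) := by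
  rw [exp_neg, ← one_div]
  apply one_div_le_one_div_of_le (by linarith)
  linarith [add_one_le_exp x]

theorem e2 : exp (-0.00037) ≤ (0.999634 : ℝ) := by
  have := exp_neg_le (x := 0.00037) (by norm_num)
  refine this.trans ?_
  norm_num

theorem e3 : (0.999828 : ℝ) ≤ exp (-0.000172) := by
  linarith [add_one_le_exp (-0.000172 : ℝ)]

theorem e4 : exp (0.0001055) ≤ (1.00011 : ℝ) := by
  have h1 := add_one_le_exp (-0.0001055 : ℝ)
  have h2 : exp (0.0001055 : ℝ) * exp (-0.0001055) = 1 := by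
    rw [← exp_add]
    simp
  nlinarith [exp_pos (0.0001055 : ℝ)]

theorem e5 : (1.00025 : ℝ) ≤ exp 0.00025 := by
  linarith [add_one_le_exp (0.00025 : ℝ)]

theorem S_le_cancel (h : IsGol f) {a b : ℕ} (hab : S f a ≤ S f b) : a ≤ b :=
  (S_strictMono h).le_iff_le.1 hab

theorem S9866_ge (h : IsGol f) : 2108626 ≤ S f 9866 := by
  have h1 := S_mono h (show 9732 ≤ 9866 by norm_num)
  rw [vals350b h] at h1
  exact h1

theorem S_add_ge (h : IsGol f) {k : ℕ} (hk4 : 9866 ≤ k + 1) : k + 2 ≤ S f k := by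
  obtain ⟨i, rfl⟩ : ∃ i, k = i + 350 := ⟨k - 350, by omega⟩
  have := (S_strictMono h).add_le_nat i 350
  rw [vals350 h] at this
  omega

theorem PstarAux (h : IsGol f) (N : ℕ) (hN : 9866 ≤ N) (hSN : 2108626 ≤ S f N)
    (hblo : ∀ n : ℕ, 9732 ≤ n → n < S f N → 0.999634 * Phi n ≤ (S f n : ℝ))
    (hbup : ∀ n : ℕ, 9732 ≤ n → n < S f N → (S f n : ℝ) ≤ 1.00036 * Phi n) :
    ∀ n : ℕ, 9732 ≤ n →
    exp (-0.00037) * Phi n ≤ S f n ∧ (S f n : ℝ) ≤ exp 0.00037 * Phi n := by
  intro n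
  induction n using Nat.strong_induction_on with
  | _ n ih =>
    intro hn
    have hPn : 0 ≤ Phi n := Phi_nonneg (Nat.cast_nonneg _)
    rcases Nat.lt_or_ge n (S f N) with hlt | hge
    · constructor
      · refine le_trans ?_ (hblo n hn hlt)
        exact mul_le_mul_of_nonneg_right e2 hPn
      · refine le_trans (hbup n hn hlt) ?_
        exact mul_le_mul_of_nonneg_right e1 hPn
    · obtain ⟨m, rfl⟩ : ∃ m, n = m + 1 := ⟨n - 1, by omega⟩
      obtain ⟨k, hk1, hk2, hk3⟩ := block h (m := m + 1) (by omega)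
      have hk4 : 9866 ≤ k + 1 := hN.trans (S_le_cancel h (hge.trans hk3))
      have hkS : k + 2 ≤ S f k := S_add_ge h hk4
      have ihm := ih m (by omega) (by omega)
      have ihk := ih k (by omega) (by omega)
      have ihk1 := ih (k + 1) (by omega) (by omega)
      have hm' : (2000000 : ℝ) ≤ m := by exact_mod_cast (by omega : 2000000 ≤ m)
      have hk' : (9865 : ℝ) ≤ k := by exact_mod_cast (by omega : 9865 ≤ k)
      have hD : 0 ≤ Phi ((m : ℝ) + 1) - Phi m := by
        have := Phi_mono (by linarith : (0 : ℝ) ≤ m) (show (m : ℝ) ≤ m + 1 by linarith)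
        linarith
      have hcast : ((m + 1 : ℕ) : ℝ) = (m : ℝ) + 1 := by push_cast; ring
      have ht1 := t_lo
      have ht2 := t_hi
      rw [hcast]
      constructor
      · have h1 := SM h 0.00037 ihk1.2 hk3 hk1
        rw [hcast] at h1
        have h2 : Phi ((m : ℝ) + 1) - Phi m ≤ phi ((m : ℝ) + 1) := by
          have := Phi_sub_le (x := (m : ℝ) + 1) (by linarith) (by linarith)
          simpa using this
        have h3 : exp (-0.00037) ≤ exp (-((t - 1) * 0.00037)) := exp_le_exp.2 n1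
        have h4 : exp (-0.00037) * (Phi ((m : ℝ) + 1) - Phi m) ≤ (f (m + 1) : ℝ) :=
          (mul_le_mul h3 h2 hD (exp_pos _).le).trans h1
        rw [S_succ]
        push_cast
        linarith [ihm.1]
      · have h1 := SP h (by omega : 1 ≤ k) (-0.00037) ihk.1 hk2 hk1
        rw [hcast] at h1
        have h2 := phi_succ_le (x := (m : ℝ)) (by linarith)
        have h3 : 1 + 1 / (k : ℝ) ≤ exp (1 / 9865) := by
          have : 1 / (k : ℝ) ≤ 1 / 9865 := one_div_le_one_div_of_le (by norm_num) hk'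
          linarith [add_one_le_exp (1 / 9865 : ℝ)]
        have h4 : 1 + 1 / (m : ℝ) ≤ exp (1 / 2000000) := by
          have : 1 / (m : ℝ) ≤ 1 / 2000000 := one_div_le_one_div_of_le (by norm_num) hm'
          linarith [add_one_le_exp (1 / 2000000 : ℝ)]
        have h5 : (f (m + 1) : ℝ) ≤ exp 0.00037 * (Phi ((m : ℝ) + 1) - Phi m) := by
          calc (f (m + 1) : ℝ) ≤
              (1 + 1 / (k : ℝ)) * (exp (-((t - 1) * (-0.00037))) * phi ((m : ℝ) + 1)) := h1
            _ ≤ exp (1 / 9865) * (exp (-((t - 1) * (-0.00037))) *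
              (exp (1 / 2000000) * (Phi ((m : ℝ) + 1) - Phi m))) := by
                apply mul_le_mul h3 _ _ (exp_pos _).le
                · apply mul_le_mul_of_nonneg_left _ (exp_pos _).le
                  exact h2.trans (mul_le_mul_of_nonneg_right h4 hD)
                · exact mul_nonneg (exp_pos _).le (phi_nonneg (by linarith))
            _ = exp (1 / 9865 + (-((t - 1) * (-0.00037))) + 1 / 2000000) *
                (Phi ((m : ℝ) + 1) - Phi m) := by
                rw [exp_add, exp_add]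
                ring
            _ ≤ _ := by
                apply mul_le_mul_of_nonneg_right _ hD
                exact exp_le_exp.2 n2
        rw [S_succ]
        push_cast
        linarith [ihm.2]

/-- two-sided bound for all `n ≥ 9732` -/
theorem Pstar (h : IsGol f) : ∀ n : ℕ, 9732 ≤ n →
    exp (-0.00037) * Phi n ≤ S f n ∧ (S f n : ℝ) ≤ exp 0.00037 * Phi n :=
  PstarAux h 9866 le_rfl (S9866_ge h)
    (fun _ hn hlt => base_lo h (by rw [vals350 h]; exact hn) hlt)
    (fun _ hn hlt => base_up h (by rw [vals350 h]; exact hn) (hlt.trans (S_lt_succ h 9866)))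

theorem base0 (h : IsGol f) : ∀ n : ℕ, 33740719 ≤ n →
    exp (-0.00026) * Phi n ≤ S f n ∧ (S f n : ℝ) ≤ exp 0.00026 * Phi n := by
  intro n hn
  obtain ⟨v1, v2, v3⟩ := vals86 h
  have hnode := (node h (k := 1010) (by norm_num) (by norm_num)).2.2.2.2 rfl
  rw [v2, v3] at hnode
  have hP : 0 ≤ Phi ((33740719 : ℕ) : ℝ) := Phi_nonneg (Nat.cast_nonneg _)
  have hK : (1 : ℝ) ≤ 1 * ((1 : ℕ) : ℝ) ^ t := by simp
  have hn1 : 1 * S f 54020 ≤ n := by rw [v3, one_mul]; exact hn
  have hn2 : S f 54020 ≤ n := by rw [v3]; exact hn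
  constructor
  · have hl : exp (-0.00024) * Phi (S f 54020) ≤ (S f (S f 54020) : ℝ) := by
      rw [v3]
      refine le_trans ?_ hnode.1
      apply mul_le_mul_of_nonneg_right _ hP
      have : exp (-0.00024 : ℝ) ≤ 1 := exp_le_one_iff.2 (by norm_num)
      linarith
    exact stepLo h (a := 54020) (b := n) (K := 1) (by norm_num) 0.00037 0.00024 1 (-0.00026)
      (fun k hk1 hk2 => (Pstar h k (by omega)).2) hl (by norm_num) le_rfl hK n3 n4 n5
      n hn1 hn2 (S_ge h n)
  · have hl : (S f (S f 54020) : ℝ) ≤ exp (0.00025) * Phi (S f 54020) := by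
      rw [v3]
      refine le_trans hnode.2 ?_
      exact mul_le_mul_of_nonneg_right e5 hP
    exact stepUp h (a := 54020) (b := n) (K := 1) (by norm_num) (-0.00037) 0.00025 1 0.00026
      (fun k hk1 hk2 => (Pstar h k (by omega)).1) hl (by norm_num) hK
      (by rw [v3]; exact n6) (by rw [v3]; exact n7) (by rw [v3]; exact n8)
      n hn1 hn2 (S_ge h n)

theorem baseL0 (h : IsGol f) : ∀ n : ℕ, 33740719 ≤ n → n ≤ 8012366431 →
    exp (0.000105) * Phi n ≤ S f n := by
  intro n hn hn2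
  obtain ⟨v1, v2, v3⟩ := vals86 h
  obtain ⟨w1, w2, w3⟩ := vals314 h
  have hnode := (node h (k := 1010) (by norm_num) (by norm_num)).2.2.2.2 rfl
  rw [v2, v3] at hnode
  have hP : 0 ≤ Phi ((33740719 : ℕ) : ℝ) := Phi_nonneg (Nat.cast_nonneg _)
  have hK : (1 : ℝ) ≤ 1 * ((1 : ℕ) : ℝ) ^ t := by simp
  have hn1 : 1 * S f 54020 ≤ n := by rw [v3, one_mul]; exact hn
  have hn3 : S f 54020 ≤ n := by rw [v3]; exact hn
  have hl : exp (-(-0.0001055)) * Phi (S f 54020) ≤ (S f (S f 54020) : ℝ) := by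
    rw [v3]
    refine le_trans ?_ hnode.1
    apply mul_le_mul_of_nonneg_right _ hP
    rw [neg_neg]
    exact e4
  have hup : ∀ k : ℕ, 54020 < k → k ≤ 1587589 → (S f k : ℝ) ≤ exp (-0.000172) * Phi k := by
    intro k hk1 hk2
    refine le_trans (base_L h (by rw [v2]; omega) (by rw [w2]; exact hk2)) ?_
    exact mul_le_mul_of_nonneg_right e3 (Phi_nonneg (Nat.cast_nonneg _))
  exact stepLo h (a := 54020) (b := 1587589) (K := 1) (by norm_num) (-0.000172) (-0.0001055) 1
      0.000105 hup hl (by norm_num) le_rfl hK n9 n10 n11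
      n hn1 hn3 (by rw [w3]; exact hn2)

end H246R3.Golomb
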