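import Mathlib
import Pool.Agent.H246R3.Golomb.Main

set_option autoImplicit false

namespace H246R3.Golomb

variable {f : ℕ → ℕ}

attribute [local irreducible] S T

noncomputable def eta (j : ℕ) : ℝ := 0.00026 * (t - 1) ^ j * (1.1 - 0.1 * (1 / 2) ^ j)
noncomputable def lam (j : ℕ) : ℝ := 0.000105 * (t - 1) ^ j * (1 / 2 + 1 / 2 * (1 / 2) ^ j)

section arith

variable {al A B e d : ℝ}

theorem ar_eta_le (hA : 0 < A) (hB : 0 < B) :
    0.00026 * A * (1.1 - 0.1 * B) ≤ 0.000286 * A := by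
  nlinarith [mul_pos hA hB]

theorem ar_eta_ge (hA : 0 < A) (hB : 0 < B) (hB1 : B ≤ 1) :
    0.00026 * A ≤ 0.00026 * A * (1.1 - 0.1 * B) := by
  nlinarith [mul_le_mul_of_nonneg_left hB1 hA.le]

theorem ar1 (h1 : 0.618 ≤ al) (h2 : al ≤ 0.61804) (hA : 0 < A) (hB : 0 < B) (hB1 : B ≤ 1)
    (he : 0 ≤ e) (he1 : e ≤ B / 27) (hd : 0 ≤ d) (hd1 : d ≤ 6e-8 * (A * B)) :
    (al * (0.00026 * A * (1.1 - 0.1 * B)) + d) +
      1.02 * (0.00026 * A * (1.1 - 0.1 * B) - (al * (0.00026 * A * (1.1 - 0.1 * B)) + d)) * e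
      ≤ 0.00026 * (A * al) * (1.1 - 0.1 * (B * (1 / 2))) := by
  set P := A * B with hP
  have hP0 : 0 < P := mul_pos hA hB
  set eta := 0.00026 * A * (1.1 - 0.1 * B) with heta
  have e1 : eta ≤ 0.000286 * A := ar_eta_le hA hB
  have e0 : 0 ≤ eta := by
    have := ar_eta_ge hA hB hB1
    have h3 : 0 ≤ 0.00026 * A := by positivity
    linarith
  have hAe : A * e ≤ P / 27 := by
    have := mul_le_mul_of_nonneg_left he1 hA.le
    rw [hP]
    linarith
  have hee : eta * e ≤ 0.000286 * (P / 27) := by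
    calc eta * e ≤ 0.000286 * A * e := mul_le_mul_of_nonneg_right e1 he
      _ = 0.000286 * (A * e) := by ring
      _ ≤ _ := by linarith
  have hee0 : 0 ≤ eta * e := mul_nonneg e0 he
  have h3 : (1 - al) * (eta * e) ≤ 0.382 * (eta * e) :=
    mul_le_mul_of_nonneg_right (by linarith) hee0
  have h4 : 0.618 * P ≤ al * P := mul_le_mul_of_nonneg_right h1 hP0.le
  have h5 : 0.00026 * (A * al) * (1.1 - 0.1 * (B * (1 / 2))) = al * eta + 0.000013 * (al * P) := by
    rw [heta, hP]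
    ring
  have h6 : 1.02 * (eta - (al * eta + d)) * e = 1.02 * ((1 - al) * (eta * e)) - 1.02 * (d * e) := by
    ring
  have h7 : 0 ≤ d * e := mul_nonneg hd he
  rw [h5, h6]
  linarith

theorem ar2 (h1 : 0.618 ≤ al) (h2 : al ≤ 0.61804) (hA : 0 < A) (hB : 0 < B) (hB1 : B ≤ 1)
    (he : 0 ≤ e) (he1 : e ≤ B / 27) (hd : 0 ≤ d) (hd1 : d ≤ 6e-8 * (A * B)) :
    (-(al * (0.000105 * A * (1 / 2 + 1 / 2 * B))) + d) +
      1.02 * (0.00026 * A * (1.1 - 0.1 * B) - (-(al * (0.000105 * A * (1 / 2 + 1 / 2 * B))) + d)) * e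
      ≤ -(0.000105 * (A * al) * (1 / 2 + 1 / 2 * (B * (1 / 2)))) := by
  set P := A * B with hP
  have hP0 : 0 < P := mul_pos hA hB
  set eta := 0.00026 * A * (1.1 - 0.1 * B) with heta
  set la := 0.000105 * A * (1 / 2 + 1 / 2 * B) with hla
  have e1 : eta ≤ 0.000286 * A := ar_eta_le hA hB
  have e2 : la ≤ 0.000105 * A := by
    rw [hla]
    nlinarith [mul_le_mul_of_nonneg_left hB1 hA.le]
  have hAe : A * e ≤ P / 27 := by
    have := mul_le_mul_of_nonneg_left he1 hA.le
    rw [hP]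
    linarith
  have hAe0 : 0 ≤ A * e := mul_nonneg hA.le he
  have hee : eta * e ≤ 0.000286 * (A * e) := by
    calc eta * e ≤ 0.000286 * A * e := mul_le_mul_of_nonneg_right e1 he
      _ = 0.000286 * (A * e) := by ring
  have hle : la * e ≤ 0.000105 * (A * e) := by
    calc la * e ≤ 0.000105 * A * e := mul_le_mul_of_nonneg_right e2 he
      _ = 0.000105 * (A * e) := by ring
  have hle2 : al * (la * e) ≤ 0.61804 * (0.000105 * (A * e)) := by
    apply mul_le_mul h2 hle _ (by norm_num)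
    apply mul_nonneg _ he
    rw [hla]
    positivity
  have h4 : 0.618 * P ≤ al * P := mul_le_mul_of_nonneg_right h1 hP0.le
  have h5 : -(0.000105 * (A * al) * (1 / 2 + 1 / 2 * (B * (1 / 2)))) =
      -(al * la) + 0.00002625 * (al * P) := by
    rw [hla, hP]
    ring
  have h6 : 1.02 * (eta - (-(al * la) + d)) * e =
      1.02 * (eta * e) + 1.02 * (al * (la * e)) - 1.02 * (d * e) := by
    ring
  have h7 : 0 ≤ d * e := mul_nonneg hd he
  rw [h5, h6]
  linarith

end arith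

/-- the state at level `j` -/
structure St (f : ℕ → ℕ) (j a b : ℕ) : Prop where
  hA : (33740719 : ℝ) * 8 ^ j ≤ a
  hR : 200 * (31 / 10 : ℝ) ^ j * a ≤ b
  hG : t ^ j ≤ Real.log a
  P : ∀ n : ℕ, a ≤ n → Real.exp (-(eta j)) * Phi n ≤ S f n ∧
    (S f n : ℝ) ≤ Real.exp (eta j) * Phi n
  L0 : Even j → ∀ n : ℕ, a ≤ n → n ≤ b → Real.exp (lam j) * Phi n ≤ S f n
  L1 : ¬ Even j → ∀ n : ℕ, a ≤ n → n ≤ b → (S f n : ℝ) ≤ Real.exp (-(lam j)) * Phi n

theorem two_rpow_t : (3 : ℝ) ≤ 2 ^ t := by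
  have h1 : (2 : ℝ) ^ ((8 : ℝ) / 5) ≤ 2 ^ t :=
    Real.rpow_le_rpow_of_exponent_le (by norm_num) (by linarith [t_lo])
  refine le_trans ?_ h1
  have h2 : ((2 : ℝ) ^ ((8 : ℝ) / 5)) ^ 5 = 2 ^ 8 := by
    rw [← Real.rpow_natCast, ← Real.rpow_mul (by norm_num)]
    norm_num
  refine (pow_le_pow_iff_left₀ (by norm_num) (by positivity) (n := 5) (by norm_num)).1 ?_
  rw [h2]
  norm_num

theorem r200 : (25 : ℝ) ≤ 200 ^ (t - 1) := by
  have h1 : (200 : ℝ) ^ ((8 : ℝ) / 13) ≤ 200 ^ (t - 1) :=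
    Real.rpow_le_rpow_of_exponent_le (by norm_num) (by linarith [t_lo])
  refine le_trans ?_ h1
  have h2 : ((200 : ℝ) ^ ((8 : ℝ) / 13)) ^ 13 = 200 ^ 8 := by
    rw [← Real.rpow_natCast, ← Real.rpow_mul (by norm_num)]
    norm_num
  refine (pow_le_pow_iff_left₀ (by norm_num) (by positivity) (n := 13) (by norm_num)).1 ?_
  rw [h2]
  norm_num

theorem r31 : (2 : ℝ) ≤ (31 / 10) ^ (t - 1) := by
  have h1 : (31 / 10 : ℝ) ^ ((8 : ℝ) / 13) ≤ (31 / 10) ^ (t - 1) :=
    Real.rpow_le_rpow_of_exponent_le (by norm_num) (by linarith [t_lo])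
  refine le_trans ?_ h1
  have h2 : ((31 / 10 : ℝ) ^ ((8 : ℝ) / 13)) ^ 13 = (31 / 10) ^ 8 := by
    rw [← Real.rpow_natCast, ← Real.rpow_mul (by norm_num)]
    norm_num
  refine (pow_le_pow_iff_left₀ (by norm_num) (by positivity) (n := 13) (by norm_num)).1 ?_
  rw [h2]
  norm_num

theorem pow_rpow_swap (x y : ℝ) (hx : 0 ≤ x) (j : ℕ) : (x ^ j) ^ y = (x ^ y) ^ j := by
  rw [← Real.rpow_natCast, ← Real.rpow_natCast, ← Real.rpow_mul hx, ← Real.rpow_mul hx, mul_comm]

theorem eta_bounds (j : ℕ) : 0 < eta j ∧ eta j ≤ 0.000286 := by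
  have ht1 := t_lo
  have ht2 := t_hi
  have hA : 0 < (t - 1) ^ j := by
    apply pow_pos
    linarith
  have hA1 : (t - 1) ^ j ≤ 1 := pow_le_one₀ (by linarith) (by linarith)
  have hB : (0 : ℝ) < (1 / 2) ^ j := by positivity
  have hB1 : (1 / 2 : ℝ) ^ j ≤ 1 := pow_le_one₀ (by norm_num) (by norm_num)
  constructor
  · have := ar_eta_ge hA hB hB1
    unfold eta
    have h3 : 0 < 0.00026 * (t - 1) ^ j := by positivity
    linarith
  · have := ar_eta_le hA hB
    unfold eta
    linarith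

theorem lam_bounds (j : ℕ) : 0.0000525 * (t - 1) ^ j ≤ lam j ∧ lam j ≤ 0.000105 := by
  have ht1 := t_lo
  have ht2 := t_hi
  have hA : 0 < (t - 1) ^ j := by
    apply pow_pos
    linarith
  have hA1 : (t - 1) ^ j ≤ 1 := pow_le_one₀ (by linarith) (by linarith)
  have hB : (0 : ℝ) < (1 / 2) ^ j := by positivity
  have hB1 : (1 / 2 : ℝ) ^ j ≤ 1 := pow_le_one₀ (by norm_num) (by norm_num)
  unfold lam
  constructor
  · nlinarith [mul_pos hA hB]
  · nlinarith [mul_le_mul_of_nonneg_left hB1 hA.le]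

theorem exp_small {x : ℝ} (h0 : 0 ≤ x) (h1 : x ≤ 0.001) : Real.exp x ≤ 1.00102 := by
  have := exp_sub_one_le h0 (by linarith)
  linarith

theorem exp_small_neg {x : ℝ} (h1 : x ≤ 0.001) : (0.999 : ℝ) ≤ Real.exp (-x) := by
  linarith [Real.add_one_le_exp (-x)]

theorem St_zero (h : IsGol f) : St f 0 33740719 8012366431 where
  hA := by norm_num
  hR := by norm_num
  hG := by
    rw [pow_zero]
    rw [Real.le_log_iff_exp_le (by norm_num)]
    have := Real.exp_one_lt_d9
    norm_num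
    linarith
  P := by
    intro n hn
    have he : eta 0 = 0.00026 := by
      unfold eta
      norm_num
    rw [he]
    have := base0 h n hn
    convert this using 3
  L0 := by
    intro _ n h1 h2
    have he : lam 0 = 0.000105 := by
      unfold lam
      norm_num
    rw [he]
    exact baseL0 h n h1 h2
  L1 := by
    intro hne
    exact absurd (by simp) hne

theorem St_step (h : IsGol f) {j a b : ℕ} (st : St f j a b) :
    St f (j + 1) (2 ^ (j + 3) * S f a) (S f b) := by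
  have ht1 := t_lo
  have ht2 := t_hi
  have hAm := st.hA
  have h8 : (1 : ℝ) ≤ 8 ^ j := one_le_pow₀ (by norm_num)
  have haR : (33740719 : ℝ) ≤ a := by nlinarith
  have ha : 1 ≤ a := by
    have : (1 : ℝ) ≤ a := by linarith
    exact_mod_cast this
  have ha0 : (0 : ℝ) < a := by linarith
  have hSa : a ≤ S f a := S_ge h a
  have hSaR : (a : ℝ) ≤ S f a := by exact_mod_cast hSa
  have hSa1 : 1 ≤ S f a := le_trans ha hSa
  -- parameters
  have hA : 0 < (t - 1) ^ j := by
    apply pow_pos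
    linarith
  have hB : (0 : ℝ) < (1 / 2) ^ j := by positivity
  have hB1 : (1 / 2 : ℝ) ^ j ≤ 1 := pow_le_one₀ (by norm_num) (by norm_num)
  have he0 : (0 : ℝ) ≤ (1 / 3) ^ (j + 3) := by positivity
  have he1 : (1 / 3 : ℝ) ^ (j + 3) ≤ (1 / 2) ^ j / 27 := by
    rw [pow_add]
    have : (1 / 3 : ℝ) ^ j ≤ (1 / 2) ^ j := pow_le_pow_left₀ (by norm_num) (by norm_num) j
    norm_num at this ⊢
    linarith
  have he2 : (1 / 3 : ℝ) ^ (j + 3) ≤ 1 := pow_le_one₀ (by norm_num) (by norm_num)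
  have hd0 : 0 ≤ 1 / (a : ℝ) + 1 / (S f a : ℝ) := by positivity
  have hd1 : 1 / (a : ℝ) + 1 / (S f a : ℝ) ≤ 6e-8 * ((t - 1) ^ j * (1 / 2) ^ j) := by
    have i1 : 1 / (S f a : ℝ) ≤ 1 / a := one_div_le_one_div_of_le ha0 hSaR
    have i2 : 1 / (a : ℝ) ≤ 1 / (33740719 * 8 ^ j) :=
      one_div_le_one_div_of_le (by positivity) hAm
    have i3 : (1 / 8 : ℝ) ^ j ≤ (t - 1) ^ j * (1 / 2) ^ j := by
      rw [← mul_pow]
      apply pow_le_pow_left₀ (by norm_num)
      linarith
    have i4 : 1 / (33740719 * (8 : ℝ) ^ j) = 1 / 33740719 * (1 / 8) ^ j := by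
      rw [one_div_pow]
      field_simp
    rw [i4] at i2
    have i5 : (0 : ℝ) < (1 / 8) ^ j := by positivity
    linarith
  have hK : (1 : ℝ) ≤ (1 / 3) ^ (j + 3) * ((2 ^ (j + 3) : ℕ) : ℝ) ^ t := by
    have k1 : ((2 ^ (j + 3) : ℕ) : ℝ) ^ t = (2 ^ t) ^ (j + 3) := by
      push_cast
      rw [← Real.rpow_natCast, ← Real.rpow_natCast, ← Real.rpow_mul (by norm_num),
        ← Real.rpow_mul (by norm_num), mul_comm]
    rw [k1, ← mul_pow]
    apply one_le_pow₀
    linarith [two_rpow_t]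
  have heta := eta_bounds j
  have hlam := lam_bounds j
  have hlam0 : 0 < lam j := by
    have : 0 < 0.0000525 * (t - 1) ^ j := by positivity
    linarith
  have hal1 : (0.618 : ℝ) ≤ t - 1 := by linarith
  have hal2 : t - 1 ≤ (0.61804 : ℝ) := by linarith
  have hetaS : eta (j + 1) = 0.00026 * ((t - 1) ^ j * (t - 1)) *
      (1.1 - 0.1 * ((1 / 2) ^ j * (1 / 2))) := by
    unfold eta
    rw [pow_succ, pow_succ]
  have hlamS : lam (j + 1) = 0.000105 * ((t - 1) ^ j * (t - 1)) *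
      (1 / 2 + 1 / 2 * ((1 / 2) ^ j * (1 / 2))) := by
    unfold lam
    rw [pow_succ, pow_succ]
  have a1 := ar1 hal1 hal2 hA hB hB1 he0 he1 hd0 hd1
  have a2 := ar2 hal1 hal2 hA hB hB1 he0 he1 hd0 hd1
  have a10 := ar1 hal1 hal2 hA hB hB1 he0 he1 le_rfl
    (d := 0) (by positivity)
  have a20 := ar2 hal1 hal2 hA hB hB1 he0 he1 le_rfl
    (d := 0) (by positivity)
  rw [← hetaS] at a1 a10
  rw [← hlamS] at a2 a20
  have heta_def : 0.00026 * (t - 1) ^ j * (1.1 - 0.1 * (1 / 2) ^ j) = eta j := rfl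
  have hlam_def : 0.000105 * (t - 1) ^ j * (1 / 2 + 1 / 2 * (1 / 2) ^ j) = lam j := rfl
  rw [heta_def] at a1 a10
  rw [heta_def, hlam_def] at a2 a20
  have hdsmall : 1 / (a : ℝ) + 1 / (S f a : ℝ) ≤ 0.1 * eta j := by
    have k1 := ar_eta_ge hA hB hB1
    rw [heta_def] at k1
    have k2 : (t - 1) ^ j * (1 / 2) ^ j ≤ (t - 1) ^ j := by
      nlinarith
    linarith
  have q1 : (t - 1) * eta j ≤ 1 * eta j :=
    mul_le_mul_of_nonneg_right (by linarith) heta.1.le
  have q2 : 0 ≤ (t - 1) * eta j := mul_nonneg (by linarith) heta.1.le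
  have q3 : (t - 1) * lam j ≤ 1 * lam j :=
    mul_le_mul_of_nonneg_right (by linarith) hlam0.le
  have q4 : 0 ≤ (t - 1) * lam j := mul_nonneg (by linarith) hlam0.le
  have q5 : (t - 1) * eta j ≤ 0.61804 * eta j :=
    mul_le_mul_of_nonneg_right hal2 heta.1.le
  have hPa := st.P a le_rfl
  have hPSa := st.P (S f a) hSa
  have hS2 : S f a ≤ 2 ^ (j + 3) * S f a := Nat.le_mul_of_pos_left _ (by positivity)
  refine ⟨?_, ?_, ?_, ?_, ?_, ?_⟩
  · -- hA
    push_cast
    have k1 : (8 : ℝ) ≤ 2 ^ (j + 3) := by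
      rw [pow_add]
      have : (1 : ℝ) ≤ 2 ^ j := one_le_pow₀ (by norm_num)
      linarith
    calc (33740719 : ℝ) * 8 ^ (j + 1) = 8 * (33740719 * 8 ^ j) := by ring
      _ ≤ 2 ^ (j + 3) * S f a := by
          apply mul_le_mul k1 (hAm.trans hSaR) (by positivity) (by positivity)
  · -- hR
    push_cast
    set w : ℝ := 200 * (31 / 10 : ℝ) ^ j with hw
    have hw0 : 0 < w := by positivity
    have hb := st.hR
    have hbR : (0 : ℝ) ≤ b := Nat.cast_nonneg _
    have hab : a ≤ b := by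
      have k1 : (1 : ℝ) ≤ (31 / 10) ^ j := one_le_pow₀ (by norm_num)
      have k1' : 1 * (a : ℝ) ≤ (31 / 10) ^ j * a := mul_le_mul_of_nonneg_right k1 ha0.le
      have : (a : ℝ) ≤ b := by
        have e : w * a = 200 * ((31 / 10) ^ j * a) := by rw [hw]; ring
        linarith
      exact_mod_cast this
    have hPb := (st.P b hab).1
    have hPhia : 0 < Phi a := Phi_pos ha0
    have k2 : w ^ t * Phi a ≤ Phi b := by
      rw [← Phi_mul hw0.le ha0.le]
      exact Phi_mono (by positivity) hb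
    have k3 : 25 * 2 ^ j ≤ w ^ (t - 1) := by
      rw [hw, Real.mul_rpow (by norm_num) (by positivity)]
      apply mul_le_mul r200 _ (by positivity) (by positivity)
      rw [pow_rpow_swap _ _ (by norm_num)]
      exact pow_le_pow_left₀ (by norm_num) r31 j
    have k4 : w ^ t = w * w ^ (t - 1) := by
      rw [mul_comm, ← Real.rpow_add_one hw0.ne']
      congr 1
      ring
    have k5 : w * (25 * 2 ^ j) * Phi a ≤ Phi b := by
      refine le_trans ?_ k2
      rw [k4]
      apply mul_le_mul_of_nonneg_right _ hPhia.le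
      exact mul_le_mul_of_nonneg_left k3 hw0.le
    have k6 : (0.999 : ℝ) ≤ Real.exp (-(eta j)) := exp_small_neg (by linarith [heta.2])
    have k7 : Real.exp (eta j) ≤ 1.00102 := exp_small heta.1.le (by linarith [heta.2])
    have k8 : (S f a : ℝ) ≤ 1.00102 * Phi a :=
      hPa.2.trans (mul_le_mul_of_nonneg_right k7 hPhia.le)
    have k9 : 0.999 * Phi b ≤ S f b :=
      (mul_le_mul_of_nonneg_right k6 (Phi_nonneg hbR)).trans hPb
    have k10 : 0 < w * 2 ^ j := by positivity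
    have k11 : 200 * (31 / 10 : ℝ) ^ (j + 1) * (2 ^ (j + 3) * (S f a : ℝ)) =
        24.8 * (w * 2 ^ j) * S f a := by
      rw [hw, pow_succ, pow_add]
      ring
    rw [k11]
    calc 24.8 * (w * 2 ^ j) * (S f a : ℝ) ≤ 24.8 * (w * 2 ^ j) * (1.00102 * Phi a) :=
          mul_le_mul_of_nonneg_left k8 (by positivity)
      _ ≤ 0.999 * (w * (25 * 2 ^ j) * Phi a) := by
          have k12 : 0 < w * 2 ^ j * Phi a := by positivity
          have k13 : 24.8 * (w * 2 ^ j) * (1.00102 * Phi a) =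
              24.825296 * (w * 2 ^ j * Phi a) := by ring
          have k14 : 0.999 * (w * (25 * 2 ^ j) * Phi a) =
              24.975 * (w * 2 ^ j * Phi a) := by ring
          rw [k13, k14]
          linarith
      _ ≤ 0.999 * Phi b := by linarith
      _ ≤ S f b := k9
  · -- hG
    have k1 : (a : ℝ) ^ t ≤ ((2 ^ (j + 3) * S f a : ℕ) : ℝ) := by
      push_cast
      have k2 : (8 : ℝ) ≤ 2 ^ (j + 3) := by
        rw [pow_add]
        have : (1 : ℝ) ≤ 2 ^ j := one_le_pow₀ (by norm_num)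
        linarith
      have k6 : (0.999 : ℝ) ≤ Real.exp (-(eta j)) := exp_small_neg (by linarith [heta.2])
      have hPhia : 0 < Phi a := Phi_pos ha0
      have k3 : 0.999 * Phi a ≤ S f a :=
        (mul_le_mul_of_nonneg_right k6 hPhia.le).trans hPa.1
      have k4 : (a : ℝ) ^ t ≤ 2 * Phi a := by
        have k5 : (a : ℝ) ^ t = t ^ t * (a / t) ^ t := by
          rw [← Real.mul_rpow t_pos.le (by have := t_pos; positivity)]
          congr 1
          have := t_pos
          field_simp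
        have k7 : t ^ t ≤ t ^ (2 : ℝ) :=
          Real.rpow_le_rpow_of_exponent_le (by linarith) (by linarith)
        have k8 : t ^ (2 : ℝ) = t * t := by
          rw [Real.rpow_two]
          ring
        rw [k5]
        unfold Phi
        have k9 : 0 ≤ ((a : ℝ) / t) ^ t := by
          have := t_pos
          positivity
        calc t ^ t * ((a : ℝ) / t) ^ t ≤ (t * t) * ((a : ℝ) / t) ^ t := by
              rw [← k8]
              exact mul_le_mul_of_nonneg_right k7 k9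
          _ ≤ 2 * (t * ((a : ℝ) / t) ^ t) := by
              have := t_pos
              have k10 : 0 ≤ t * ((a : ℝ) / t) ^ t := by positivity
              have k12 := mul_le_mul_of_nonneg_right (show t ≤ 2 by linarith) k10
              linarith
      have hS0 : (0 : ℝ) < S f a := by linarith
      have k11 := mul_le_mul_of_nonneg_right k2 hS0.le
      linarith
    have k2 : t * Real.log a ≤ Real.log ((2 ^ (j + 3) * S f a : ℕ) : ℝ) := by
      rw [← Real.log_rpow ha0]
      exact Real.log_le_log (by positivity) k1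
    calc t ^ (j + 1) = t * t ^ j := by ring
      _ ≤ t * Real.log a := mul_le_mul_of_nonneg_left st.hG t_pos.le
      _ ≤ _ := k2
  · -- P
    intro n hn
    have hn2 : S f a ≤ n := hS2.trans hn
    constructor
    · refine stepLo h (b := n) ha (eta j) (eta j) ((1 / 3) ^ (j + 3)) (-(eta (j + 1)))
        (fun k hk1 hk2 => (st.P k (by omega)).2) hPSa.1 he0 he2 hK ?_ ?_ ?_ n hn hn2 (S_ge h n)
      · linarith [heta.1]
      · linarith [heta.1, heta.2]
      · linarith
    · refine stepUp h (b := n) ha (-(eta j)) (eta j) ((1 / 3) ^ (j + 3)) (eta (j + 1))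
        (fun k hk1 hk2 => (st.P k (by omega)).1) hPSa.2 he0 hK ?_ ?_ ?_ n hn hn2 (S_ge h n)
      · linarith [heta.1]
      · linarith [heta.1, heta.2]
      · have e : -((t - 1) * -(eta j)) + 1 / (a : ℝ) + 1 / (S f a : ℝ) =
            (t - 1) * eta j + (1 / (a : ℝ) + 1 / (S f a : ℝ)) := by ring
        rw [e]
        exact a1
  · -- L0 at j+1 even, so j odd
    intro hev n hn hnb
    have hodd : ¬ Even j := by
      intro h'
      exact (Nat.even_add_one.1 hev) h'
    have hn2 : S f a ≤ n := hS2.trans hn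
    refine stepLo h (b := b) ha (-(lam j)) (eta j) ((1 / 3) ^ (j + 3)) (lam (j + 1))
      (fun k hk1 hk2 => st.L1 hodd k (by omega) hk2) hPSa.1 he0 he2 hK ?_ ?_ ?_ n hn hn2 hnb
    · linarith [heta.1]
    · linarith [heta.1, heta.2, hlam.2]
    · linarith
  · -- L1 at j+1 odd, so j even
    intro hod n hn hnb
    have hev : Even j := by
      by_contra h'
      exact hod (Nat.even_add_one.2 h')
    have hn2 : S f a ≤ n := hS2.trans hn
    refine stepUp h (b := b) ha (lam j) (eta j) ((1 / 3) ^ (j + 3)) (-(lam (j + 1)))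
      (fun k hk1 hk2 => st.L0 hev k hk1 (by omega)) hPSa.2 he0 hK ?_ ?_ ?_ n hn hn2 hnb
    · linarith [heta.1]
    · linarith [heta.1, heta.2, hlam.2]
    · have e : -((t - 1) * (lam j)) + 1 / (a : ℝ) + 1 / (S f a : ℝ) =
          -((t - 1) * lam j) + (1 / (a : ℝ) + 1 / (S f a : ℝ)) := by ring
      rw [e]
      exact a2

end H246R3.Golomb
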