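import Mathlib
import Pool.Agent.H246R3.Golomb.Final

set_option autoImplicit false

namespace H246R3.Golomb

variable {f : ℕ → ℕ}

attribute [local irreducible] S T

/-- the chain of levels -/
def lev (f : ℕ → ℕ) : ℕ → ℕ × ℕ
  | 0 => (33740719, 8012366431)
  | j + 1 => (2 ^ (j + 3) * S f (lev f j).1, S f (lev f j).2)

theorem lev_St (h : IsGol f) (j : ℕ) : St f j (lev f j).1 (lev f j).2 := by
  induction j with
  | zero => exact St_zero h
  | succ j ih => exact St_step h ih

theorem lev_lt (h : IsGol f) (j : ℕ) : (lev f j).1 < (lev f (j + 1)).1 := by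
  have hst := (lev_St h j).hA
  have h8 : (1 : ℝ) ≤ 8 ^ j := one_le_pow₀ (by norm_num)
  have h1 : (1 : ℝ) ≤ ((lev f j).1 : ℝ) := by nlinarith
  have h2 : 1 ≤ (lev f j).1 := by exact_mod_cast h1
  have h3 : (lev f j).1 ≤ S f (lev f j).1 := S_ge h _
  have h4 : 2 ≤ 2 ^ (j + 3) := by
    calc 2 = 2 ^ 1 := by norm_num
      _ ≤ 2 ^ (j + 3) := Nat.pow_le_pow_right (by norm_num) (by omega)
  have h5 : 2 * S f (lev f j).1 ≤ 2 ^ (j + 3) * S f (lev f j).1 := Nat.mul_le_mul_right _ h4
  change (lev f j).1 < 2 ^ (j + 3) * S f (lev f j).1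
  omega

theorem lev_strictMono (h : IsGol f) : StrictMono fun j => (lev f j).1 :=
  strictMono_nat_of_lt_succ (lev_lt h)

theorem phi_eq (x : ℝ) (hx : 0 ≤ x) : phi x = t ^ (2 - t) * x ^ (t - 1) := by
  unfold phi
  have ht := t_pos
  rw [Real.div_rpow hx ht.le]
  have h1 : t ^ (2 - t) = t / t ^ (t - 1) := by
    have : (2 - t) = 1 - (t - 1) := by ring
    rw [this, Real.rpow_sub ht, Real.rpow_one]
  rw [h1]
  ring

theorem rpow_le_phi (x : ℝ) (hx : 0 ≤ x) : x ^ (t - 1) ≤ phi x := by
  rw [phi_eq x hx]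
  have h1 : 1 ≤ t ^ (2 - t) := Real.one_le_rpow (by linarith [t_lo]) (by linarith [t_hi])
  have h2 : 0 ≤ x ^ (t - 1) := Real.rpow_nonneg hx _
  nlinarith

/-- value of `f` at `S a` -/
theorem f_S (h : IsGol f) {a : ℕ} (ha : 1 ≤ a) : f (S f a) = a := by
  obtain ⟨b, rfl⟩ : ∃ b, a = b + 1 := ⟨a - 1, by omega⟩
  exact h.eq_of (S_lt_succ h b) le_rfl

theorem level_low (h : IsGol f) {j a b : ℕ} (st : St f j a b) (hab : a ≤ b) (hj : Even j) :
    (f (S f a) : ℝ) - t ^ (2 - t) * (S f a : ℝ) ^ (t - 1) <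
      -(0.000001 * (S f a : ℝ) ^ (t - 1) / Real.log (S f a)) := by
  have ht1 := t_lo
  have ht2 := t_hi
  have h8 : (1 : ℝ) ≤ 8 ^ j := one_le_pow₀ (by norm_num)
  have haR : (33740719 : ℝ) ≤ a := by nlinarith [st.hA]
  have ha : 1 ≤ a := by
    have : (1 : ℝ) ≤ a := by linarith
    exact_mod_cast this
  have ha0 : (0 : ℝ) < a := by linarith
  have hSaR : (a : ℝ) ≤ S f a := by exact_mod_cast S_ge h a
  have hS0 : (0 : ℝ) < S f a := by linarith
  have hlam := lam_bounds j
  have heta := eta_bounds j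
  have hA : 0 < (t - 1) ^ j := by
    apply pow_pos
    linarith
  rw [f_S h ha, ← phi_eq _ hS0.le]
  -- lower bound of phi
  have h1 : Real.exp ((t - 1) * lam j) * a ≤ phi (S f a) := by
    calc Real.exp ((t - 1) * lam j) * a = phi (Real.exp (lam j) * Phi a) := by
          rw [phi_exp (Phi_nonneg ha0.le), phi_Phi ha0.le]
      _ ≤ phi (S f a) := phi_mono
          (mul_nonneg (Real.exp_pos _).le (Phi_nonneg ha0.le)) (st.L0 hj a le_rfl hab)
  have h2 : (a : ℝ) + (t - 1) * lam j * a ≤ phi (S f a) := by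
    have := Real.add_one_le_exp ((t - 1) * lam j)
    nlinarith
  -- upper bound of phi
  have h3 : phi (S f a) ≤ Real.exp ((t - 1) * eta j) * a := by
    calc phi (S f a) ≤ phi (Real.exp (eta j) * Phi a) := phi_mono hS0.le (st.P a le_rfl).2
      _ = _ := by rw [phi_exp (Phi_nonneg ha0.le), phi_Phi ha0.le]
  have h4 : Real.exp ((t - 1) * eta j) ≤ 1.00102 := by
    apply exp_small
    · have := heta.1
      have : 0 < t - 1 := by linarith
      positivity
    · nlinarith [heta.1, heta.2]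
  have h5 : (S f a : ℝ) ^ (t - 1) ≤ 2 * a := by
    refine (rpow_le_phi _ hS0.le).trans (h3.trans ?_)
    nlinarith
  have hlog : t ^ j ≤ Real.log (S f a) :=
    st.hG.trans (Real.log_le_log ha0 hSaR)
  have htj : 0 < t ^ j := pow_pos t_pos j
  have h6 : 0.000001 * (S f a : ℝ) ^ (t - 1) / Real.log (S f a) ≤ 0.000001 * (2 * a) / t ^ j := by
    apply div_le_div₀ (by positivity) _ htj hlog
    linarith
  have h7 : (t - 1) ^ j * t ^ j = 1 := by
    rw [← mul_pow]
    have : (t - 1) * t = 1 := by linarith [t_inv]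
    rw [this, one_pow]
  have h8 : 0.000001 * (2 * (a : ℝ)) / t ^ j = 0.000002 * a * (t - 1) ^ j := by
    rw [div_eq_iff htj.ne']
    calc 0.000001 * (2 * (a : ℝ)) = 0.000002 * a * ((t - 1) ^ j * t ^ j) := by
          rw [h7]
          ring
      _ = 0.000002 * a * (t - 1) ^ j * t ^ j := by ring
  have h9 : 0.000002 * (a : ℝ) * (t - 1) ^ j < (t - 1) * lam j * a := by
    have h10 : 0.618 * (0.0000525 * (t - 1) ^ j) ≤ (t - 1) * lam j :=
      mul_le_mul (by linarith) hlam.1 (by positivity) (by linarith)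
    have h11 : 0.618 * (0.0000525 * (t - 1) ^ j) * a ≤ (t - 1) * lam j * a :=
      mul_le_mul_of_nonneg_right h10 ha0.le
    have h12 : 0 < (t - 1) ^ j * a := by positivity
    nlinarith
  linarith

theorem level_high (h : IsGol f) {j a b : ℕ} (st : St f j a b) (hab : a ≤ b) (hj : ¬ Even j) :
    (f (S f a) : ℝ) - t ^ (2 - t) * (S f a : ℝ) ^ (t - 1) >
      0.000001 * (S f a : ℝ) ^ (t - 1) / Real.log (S f a) := by
  have ht1 := t_lo
  have ht2 := t_hi
  have h8 : (1 : ℝ) ≤ 8 ^ j := one_le_pow₀ (by norm_num)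
  have haR : (33740719 : ℝ) ≤ a := by nlinarith [st.hA]
  have ha : 1 ≤ a := by
    have : (1 : ℝ) ≤ a := by linarith
    exact_mod_cast this
  have ha0 : (0 : ℝ) < a := by linarith
  have hSaR : (a : ℝ) ≤ S f a := by exact_mod_cast S_ge h a
  have hS0 : (0 : ℝ) < S f a := by linarith
  have hlam := lam_bounds j
  have hA : 0 < (t - 1) ^ j := by
    apply pow_pos
    linarith
  rw [f_S h ha, ← phi_eq _ hS0.le]
  have h1 : phi (S f a) ≤ Real.exp ((t - 1) * -(lam j)) * a := by
    calc phi (S f a) ≤ phi (Real.exp (-(lam j)) * Phi a) :=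
          phi_mono hS0.le (st.L1 hj a le_rfl hab)
      _ = _ := by rw [phi_exp (Phi_nonneg ha0.le), phi_Phi ha0.le]
  have hx0 : 0 ≤ (t - 1) * lam j := by
    have h2 : 0 < 0.0000525 * (t - 1) ^ j := by positivity
    have h3 : 0 < lam j := by linarith
    have : 0 < t - 1 := by linarith
    positivity
  have hx1 : (t - 1) * lam j ≤ 0.001 := by
    have h2 : (t - 1) * lam j ≤ 1 * 0.000105 := by
      apply mul_le_mul (by linarith) hlam.2 _ (by norm_num)
      have h2 : 0 < 0.0000525 * (t - 1) ^ j := by positivity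
      linarith
    linarith
  have h2 : Real.exp ((t - 1) * -(lam j)) ≤ 1 - (t - 1) * lam j / 2 := by
    have e : (t - 1) * -(lam j) = -((t - 1) * lam j) := by ring
    rw [e]
    refine (exp_neg_le hx0).trans ?_
    rw [div_le_iff₀ (by linarith)]
    nlinarith
  have h3 : phi (S f a) ≤ a - (t - 1) * lam j / 2 * a := by
    have := mul_le_mul_of_nonneg_right h2 ha0.le
    linarith
  have h5 : (S f a : ℝ) ^ (t - 1) ≤ a := by
    refine (rpow_le_phi _ hS0.le).trans (h3.trans ?_)
    have : 0 ≤ (t - 1) * lam j / 2 * a := by positivity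
    linarith
  have hlog : t ^ j ≤ Real.log (S f a) :=
    st.hG.trans (Real.log_le_log ha0 hSaR)
  have htj : 0 < t ^ j := pow_pos t_pos j
  have h6 : 0.000001 * (S f a : ℝ) ^ (t - 1) / Real.log (S f a) ≤ 0.000001 * a / t ^ j := by
    apply div_le_div₀ (by positivity) _ htj hlog
    linarith
  have h7 : (t - 1) ^ j * t ^ j = 1 := by
    rw [← mul_pow]
    have : (t - 1) * t = 1 := by linarith [t_inv]
    rw [this, one_pow]
  have h8 : 0.000001 * (a : ℝ) / t ^ j = 0.000001 * a * (t - 1) ^ j := by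
    rw [div_eq_iff htj.ne']
    calc 0.000001 * (a : ℝ) = 0.000001 * a * ((t - 1) ^ j * t ^ j) := by
          rw [h7]
          ring
      _ = 0.000001 * a * (t - 1) ^ j * t ^ j := by ring
  have h9 : 0.000001 * (a : ℝ) * (t - 1) ^ j < (t - 1) * lam j / 2 * a := by
    have h10 : 0.618 * (0.0000525 * (t - 1) ^ j) ≤ (t - 1) * lam j :=
      mul_le_mul (by linarith) hlam.1 (by positivity) (by linarith)
    have h11 : 0.618 * (0.0000525 * (t - 1) ^ j) * a ≤ (t - 1) * lam j * a :=
      mul_le_mul_of_nonneg_right h10 ha0.le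
    have h12 : 0 < (t - 1) ^ j * a := by positivity
    nlinarith
  linarith

theorem St_ab (h : IsGol f) {j a b : ℕ} (st : St f j a b) : a ≤ b := by
  have hb := st.hR
  have k1 : (1 : ℝ) ≤ (31 / 10) ^ j := one_le_pow₀ (by norm_num)
  have k2 : (0 : ℝ) ≤ a := Nat.cast_nonneg _
  have : (a : ℝ) ≤ b := by nlinarith
  exact_mod_cast this

theorem omega_main (h : IsGol f) :
    ∃ c₁ c₂ : ℝ, 0 < c₁ ∧ 0 < c₂ ∧
        Set.Infinite {n : ℕ |
          (f n : ℝ) - t ^ (2 - t) * (n : ℝ) ^ (t - 1)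
            > c₁ * (n : ℝ) ^ (t - 1) / Real.log n} ∧
        Set.Infinite {n : ℕ |
          (f n : ℝ) - t ^ (2 - t) * (n : ℝ) ^ (t - 1)
            < -(c₂ * (n : ℝ) ^ (t - 1) / Real.log n)} := by
  refine ⟨0.000001, 0.000001, by norm_num, by norm_num, ?_, ?_⟩
  · apply Set.infinite_of_injective_forall_mem (f := fun i : ℕ => S f (lev f (2 * i + 1)).1)
    · intro i i' hii
      have h1 := (S_strictMono h).injective hii
      have h2 := (lev_strictMono h).injective h1
      omega
    · intro i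
      have st := lev_St h (2 * i + 1)
      exact level_high h st (St_ab h st) (by simp)
  · apply Set.infinite_of_injective_forall_mem (f := fun i : ℕ => S f (lev f (2 * i)).1)
    · intro i i' hii
      have h1 := (S_strictMono h).injective hii
      have h2 := (lev_strictMono h).injective h1
      omega
    · intro i
      have st := lev_St h (2 * i)
      exact level_low h st (St_ab h st) (by simp)

end H246R3.Golomb
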